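import Pool.Agent.H64.GF.Mv

/-!
# The relative gradient of a target over slope-one places, several followers, any label

`fol`: the frame (the same function as `Pool.V0Q.folN`). `gfr`: the relative gradient of the place
`i` in the directions of the places below `k`, the places `k, …, i - 1` on their charts of the last
window; the label `GN` of the place `i` is near the chart of the first window.
-/

set_option autoImplicit false

namespace Pool.GF64

open Finset Real MvPolynomial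
open Pool.Agent.H49.Ent Pool.Agent.H32.Dense Pool.STK Pool.KA Pool.KSAT Pool.K2S Pool.PB Pool.S6C
open Pool.GEN Pool.CHT Pool.CHX Pool.ISO
open Pool.D2R

/-- **The frame**: the charts of the window `kb` for the places below `k`, the charts of the window
`kn` for the followers `k, …, i - 1`, the label `GN` for the others. -/
def fol {m J : ℕ} {F : Fam m J} (G : ℕ → PtT F → ℕ → MvPolynomial (Option (Fin m)) ℝ)
    (GN : PtT F → MvPolynomial (Option (Fin m)) ℝ) (kb kn k i : ℕ) :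
    PtT F → ℕ → MvPolynomial (Option (Fin m)) ℝ := fun y l =>
  if l < k then G kb y l else if l < i then G kn y l else GN y

theorem depC_mono {m : ℕ} {c : ℕ → Fin m} {i l : ℕ} {Q : MvPolynomial (Option (Fin m)) ℝ}
    (h : DepC c i Q) (hl : i ≤ l) : DepC c l Q :=
  fun b b' h1 h2 => h b b' h1 fun j hj => h2 j (by omega)

/-- **(GFR)** The relative gradient of the place `i`, followers `k, …, i - 1`, any label `GN` near
the chart of the first window. -/
theorem gfr (D D' r : ℕ) : ∃ C : ℕ, 1 ≤ C ∧ ∀ {m J : ℕ} {F : Fam m J} {c : ℕ → Fin m}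
    {Dr N M : ℕ} {C₀ a Eb ηm : ℝ} {o η σ : ℕ → ℝ} {lv b : ℕ → ℕ → ℝ} {κ : ℝ}
    {z : ℕ → ℕ → ℕ} {B : F.Ω → Prop} {g₀ : ℕ → ℕ → ℕ}
    {G : ℕ → PtT F → ℕ → MvPolynomial (Option (Fin m)) ℝ}
    {H : ℕ → LnT F → ℕ → MvPolynomial (Option (Fin m)) ℝ}
    (_ : WinB F c r D Dr N M C₀ a Eb ηm o η σ lv b κ z B g₀ G H)
    {GN : PtT F → MvPolynomial (Option (Fin m)) ℝ} {κN : F.Ω → ℝ}
    {fb jb f jj : ℕ → ℕ} {k i nb n ks q X Y : ℕ} {S b' : ℝ}, k ≤ i → i ≤ r →
    (∀ t ≤ nb, fb t ≤ N) →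
    (∀ t < nb, jb t ≤ M ∧ z (fb t) (jb t) = ⌊o (fb (t + 1)) * J⌋₊ - ⌊o (fb t) * J⌋₊ ∧
      o (fb t) ≤ o (fb (t + 1))) → (nb : ℝ) ≤ 2 ^ Y →
    (∀ t ≤ nb, ∀ l < k, (lv (fb t) l - o (fb t) - (lv (fb nb) l - o (fb nb))) * J ≤ Y ∧
      (lv (fb nb) l - o (fb nb) - (lv (fb t) l - o (fb t))) * J ≤ Y) → f 0 = fb nb →
    Set.InjOn c (Set.Iio (r + 1)) → 1 ≤ n → (∀ t ≤ n, f t ≤ N) →
    (∀ t < n, jj t ≤ M ∧ z (f t) (jj t) = ⌊o (f (t + 1)) * J⌋₊ - ⌊o (f t) * J⌋₊ ∧
      o (f t) ≤ o (f (t + 1))) →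
    C₀ * (ηm * J) ≤ Y → 3 ≤ Y → (n : ℝ) ≤ 2 ^ Y → 0 ≤ S → S ≤ b' →
    (∀ t < n, ∀ l ≤ i, (lv (f (t + 1)) l - lv (f t) l) * J ≤ Y ∧
      (lv (f t) l - lv (f (t + 1)) l) * J ≤ Y) →
    (∀ t < n, b' * ((o (f (t + 1)) - o (f t)) * J) ≤ Y) →
    -- the slopes
    (∀ t t', t ≤ t' → t' ≤ n → ∀ l < k,
      (lv (f t') l - lv (f t) l) * J ≤ S * ((o (f t') - o (f t)) * J) + Y) →
    (∀ t t', t ≤ t' → t' ≤ n → ∀ l, k ≤ l → l ≤ i →
      b' * ((o (f t') - o (f t)) * J) ≤ (lv (f t') l - lv (f t) l) * J + Y) →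
    -- the label of the target
    (∀ y, (GN y).totalDegree ≤ D') → (∀ y, DepC c i (GN y)) →
    (∀ ω, B ω → ∀ x, NBx c (G (f 0) (ptr F J ω)) (g₀ (f 0)) ⌊o (f 0) * J⌋₊ (F.t ω) i x →
      |eval x (GN (ptr F J ω)) + κN ω - eval x (G (f 0) (ptr F J ω) i)| ≤
        2 ^ Y / 2 ^ g₀ (f 0) i) →
    -- the numbers
    S * ((o (f n) - o (f 0)) * J) + 3 ≤ q →
    (q : ℝ) + X ≤ b' * ((o (f n) - o (f 0)) * J) + Y → X ≤ q → ks ≤ n →
    (X : ℝ) ≤ (b' - S) * ((o (f ks) - o (f 0)) * J) + Y →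
    -- the bounds, also in the directions of the slower followers
    (∀ ω, B ω → ∀ j < i, (k ≤ j → ∀ t t', t ≤ t' → t' ≤ n → ∀ l, j < l → l ≤ i →
        (lv (f t') j - lv (f t) j) * J ≤ (lv (f t') l - lv (f t) l) * J + Y) →
      |gnh F c i (g₀ (f 0)) (fol G GN (fb 0) (f n) k i) (G (f n)) ω j| ≤ 2 ^ (C * Y)) ∧
    ∀ ω ν, B ω → B ν → F.t ω = F.t ν → GN (ptr F J ω) = GN (ptr F J ν) →
      (∀ j < k, |hgt F c (fol G GN (fb 0) (f n) k i) ω j -
        hgt F c (fol G GN (fb 0) (f n) k i) ν j| ≤ 2 ^ 2 / 2 ^ (g₀ (f 0) j + q)) →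
      (∀ l < k, G (fb 0) (ptr F J ω) l = G (fb 0) (ptr F J ν) l) →
      ((∀ t ≤ ks, ∀ l ≤ i, G (f t) (ptr F J ω) l = G (f t) (ptr F J ν) l) → ∀ j < k,
        |gnh F c i (g₀ (f 0)) (fol G GN (fb 0) (f n) k i) (G (f n)) ω j -
          gnh F c i (g₀ (f 0)) (fol G GN (fb 0) (f n) k i) (G (f n)) ν j| ≤
            2 ^ (C * Y) / 2 ^ X) ∧
      ((∀ t ≤ n, ∀ l ≤ i, G (f t) (ptr F J ω) l = G (f t) (ptr F J ν) l) →
        (∀ j < k, |gnh F c i (g₀ (f 0)) (fol G GN (fb 0) (f n) k i) (G (f n)) ω j -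
          gnh F c i (g₀ (f 0)) (fol G GN (fb 0) (f n) k i) (G (f n)) ν j| ≤
            2 ^ (C * Y) / 2 ^ X) ∧
        |2 ^ (g₀ (f 0) i + q) * (hgt F c (fol G GN (fb 0) (f n) k i) ω i -
            hgt F c (fol G GN (fb 0) (f n) k i) ν i) -
          ∑ j ∈ range k,
            gnh F c i (g₀ (f 0)) (fol G GN (fb 0) (f n) k i) (G (f n)) ω j *
            (2 ^ (g₀ (f 0) j + q) * (hgt F c (fol G GN (fb 0) (f n) k i) ω j -
              hgt F c (fol G GN (fb 0) (f n) k i) ν j))| ≤ 2 ^ (C * Y) / 2 ^ X) := by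
  have h1 := fun i : ℕ => fol_one i (max D D')
  have h2 := fun i : ℕ => fol_mv i (max D D')
  have h3 := fun i : ℕ => v0_near D i
  choose Ca hCa hone using h1
  choose Cb hCb hmv using h2
  choose Cc hCc hvn using h3
  obtain ⟨C₂, hC₂⟩ : ∃ C₂ : ℕ, C₂ = ∑ i ∈ range (r + 1), (Ca i + Cb i + Cc i) := ⟨_, rfl⟩
  have hCle : ∀ i ≤ r, Ca i ≤ C₂ ∧ Cb i ≤ C₂ ∧ Cc i ≤ C₂ := by
    intro i hi
    have h4 : Ca i + Cb i + Cc i ≤ C₂ := by
      rw [hC₂]
      exact Finset.single_le_sum (f := fun i => Ca i + Cb i + Cc i) (fun _ _ => Nat.zero_le _)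
        (Finset.mem_range.2 (Nat.lt_succ_of_le hi))
    omega
  obtain ⟨A, hA⟩ : ∃ A : ℕ, A = C₂ + 10 := ⟨_, rfl⟩
  refine ⟨C₂ * (A + 1) + A + 10, by omega, ?_⟩
  intro m J F c Dr N M C₀ a Eb ηm o η σ lv b κ z B g₀ G H W GN κN fb jb f jj k i nb n ks q X Y
    S b' hki hi hfb hstb hnb hslb hf0 hc hn1 hf hst hY hY3 hn hS hSb hlv hos hSl hbl hGd hGp hGb
    hq hqX hXq hks hX
  obtain ⟨hCai, hCbi, -⟩ := hCle i hi
  obtain ⟨-, -, hCck⟩ := hCle k (by omega)
  have hJ : (0 : ℝ) ≤ J := Nat.cast_nonneg J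
  have hC1 := W.C1
  have hηm0 : 0 ≤ ηm := (W.hη (f 0) (hf 0 (Nat.zero_le n))).1.trans
    (W.hη (f 0) (hf 0 (Nat.zero_le n))).2
  have hY3R : (3 : ℝ) ≤ Y := by exact_mod_cast hY3
  have hηY : ηm * J ≤ Y := by
    have h1 : ηm * J ≤ C₀ * (ηm * J) := le_mul_of_one_le_left (mul_nonneg hηm0 hJ) hC1
    linarith
  have hb0 : 0 ≤ b' := hS.trans hSb
  have hci : Set.InjOn c (Set.Iio (i + 1)) := hc.mono fun y hy => by
    rw [Set.mem_Iio] at hy ⊢
    omega
  have hci' : Set.InjOn c (Set.Iio i) := hc.mono fun y hy => by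
    rw [Set.mem_Iio] at hy ⊢
    omega
  have hfs : (2 : ℝ) ^ ⌊C₀ * (ηm * J)⌋₊ ≤ 2 ^ Y := pow_le_pow_right₀ (by norm_num) (by
    have h3 : (⌊C₀ * (ηm * J)⌋₊ : ℝ) ≤ Y :=
      (Nat.floor_le (mul_nonneg (by linarith) (mul_nonneg hηm0 hJ))).trans hY
    exact_mod_cast h3)
  obtain ⟨P, hP⟩ : ∃ P : ℕ, P = A * Y := ⟨_, rfl⟩
  have hP10 : 10 * Y ≤ P := by rw [hP, hA]; exact Nat.mul_le_mul_right _ (by omega)
  have hPR : (10 : ℝ) * Y ≤ P := by exact_mod_cast hP10
  have hPc : Cc k * Y ≤ P := by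
    rw [hP, hA]
    exact Nat.mul_le_mul_right _ (by omega)
  -- the closeness of the first window
  obtain ⟨κb, -, hκb⟩ := hvn k W (fb := fb) (jb := jb) (nb := nb) (Y := Y) hc (by omega) hfb hstb
    hY hY3 hnb hslb
  -- the windows
  have homon : ∀ k k', k ≤ k' → k' ≤ n → o (f k) ≤ o (f k') := by
    intro k k' hk
    induction hk with
    | refl => exact fun _ => le_rfl
    | step h ih => exact fun hk' => (ih (by omega)).trans (hst _ (by omega)).2.2
  obtain ⟨s, hs⟩ : ∃ s : ℕ → ℝ, s = fun k => (o (f k) - o (f 0)) * J := ⟨_, rfl⟩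
  have hs0 : s 0 = 0 := by rw [hs]; show (o (f 0) - o (f 0)) * (J : ℝ) = 0; rw [sub_self, zero_mul]
  have hsm : ∀ k k', k ≤ k' → k' ≤ n → s k ≤ s k' := by
    intro k k' hk hk'
    rw [hs]
    exact mul_le_mul_of_nonneg_right (by linarith [homon k k' hk hk']) hJ
  have hsd : ∀ k k', (o (f k') - o (f k)) * J = s k' - s k := by
    intro k k'
    rw [hs]
    show _ = (o (f k') - o (f 0)) * (J : ℝ) - (o (f k) - o (f 0)) * J
    ring
  have hsnn : ∀ k ≤ n, 0 ≤ s k := fun k hk => by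
    rw [← hs0]
    exact hsm 0 k (Nat.zero_le k) hk
  have hq' : S * s n + 3 ≤ q := by
    have := hq
    rw [hsd, hs0, sub_zero] at this
    exact this
  have hqX' : (q : ℝ) + X ≤ b' * s n + Y := by
    have := hqX
    rw [hsd, hs0, sub_zero] at this
    exact this
  have hX' : (X : ℝ) ≤ (b' - S) * s ks + Y := by
    have := hX
    rw [hsd, hs0, sub_zero] at this
    exact this
  have hXqR : (X : ℝ) ≤ q := by exact_mod_cast hXq
  -- the levels
  obtain ⟨L, hL⟩ : ∃ L : ℕ → ℕ → ℝ, L = fun k l => lv (f k) l * J := ⟨_, rfl⟩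
  have hLd : ∀ k k' l, (lv (f k') l - lv (f k) l) * J = L k' l - L k l := by
    intro k k' l
    rw [hL]
    show _ = lv (f k') l * (J : ℝ) - lv (f k) l * J
    ring
  have hg : ∀ k ≤ n, ∀ l ≤ i, L k l - Y ≤ (g₀ (f k) l : ℝ) ∧ (g₀ (f k) l : ℝ) ≤ L k l := by
    intro k hk l hl
    obtain ⟨-, -, a1, a2⟩ := W.g_num (hf k hk) (show l ≤ r by omega)
    rw [hL]
    exact ⟨by
      show lv (f k) l * (J : ℝ) - Y ≤ _
      linarith, a2⟩
  -- the chains
  obtain ⟨fm, hfm⟩ : ∃ fm : ℕ → ℕ, fm = fun k => f (min k n) := ⟨_, rfl⟩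
  have hfe : ∀ k ≤ n, fm k = f k := fun k hk => by
    rw [hfm]
    show f (min k n) = f k
    rw [min_eq_left hk]
  have hfN : ∀ k, fm k ≤ N := fun k => by
    rw [hfm]
    exact hf _ (min_le_right _ _)
  have hfm0 : fm 0 = f 0 := hfe 0 (Nat.zero_le n)
  obtain ⟨ψ, hψ⟩ : ∃ ψ : F.Ω → ℕ → ℕ → MvPolynomial (Option (Fin m)) ℝ, ψ = fun ω t l =>
    Nat.casesOn t (if l < k then G (fb 0) (ptr F J ω) l else if l < i then
      G (fm 0) (ptr F J ω) l else GN (ptr F J ω)) (fun t' => G (fm t') (ptr F J ω) l) := ⟨_, rfl⟩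
  have hψ0 : ∀ ω l, ψ ω 0 l = if l < k then G (fb 0) (ptr F J ω) l else if l < i then
      G (fm 0) (ptr F J ω) l else GN (ptr F J ω) := fun ω l => by rw [hψ]; rfl
  have hψs : ∀ ω t l, ψ ω (t + 1) l = G (fm t) (ptr F J ω) l := fun ω t l => by rw [hψ]
  obtain ⟨Q, hQ⟩ : ∃ Q : F.Ω → ℕ → ℕ → MvPolynomial (Option (Fin m)) ℝ, Q = fun ω t l =>
    Nat.casesOn t (if l < k then G (fb 0) (ptr F J ω) l - G (fm 0) (ptr F J ω) l +
      MvPolynomial.C (κb ω l) else if l < i then 0 else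
      GN (ptr F J ω) - G (fm 0) (ptr F J ω) l + MvPolynomial.C (κN ω))
      (fun t' => Gno (c l) J J (fun y => G (fm t') y l) (ptr F J ω) -
        G (fm (t' + 1)) (ptr F J ω) l) := ⟨_, rfl⟩
  have hQ0 : ∀ ω l, Q ω 0 l = if l < k then G (fb 0) (ptr F J ω) l - G (fm 0) (ptr F J ω) l +
      MvPolynomial.C (κb ω l) else if l < i then 0 else
      GN (ptr F J ω) - G (fm 0) (ptr F J ω) l + MvPolynomial.C (κN ω) := fun ω l => by
    rw [hQ]
    rfl
  have hQs : ∀ ω t l, Q ω (t + 1) l = Gno (c l) J J (fun y => G (fm t) y l) (ptr F J ω) -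
        G (fm (t + 1)) (ptr F J ω) l := fun ω t l => by rw [hQ]
  obtain ⟨gg, hgg⟩ : ∃ gg : ℕ → ℕ → ℕ, gg = fun t l =>
    Nat.casesOn t (g₀ (f 0) l) (fun t' => g₀ (fm t') l) := ⟨_, rfl⟩
  have hggs : ∀ t l, gg (t + 1) l = g₀ (fm t) l := fun t l => by rw [hgg]
  obtain ⟨aa, haa⟩ : ∃ aa : ℕ → ℕ, aa = fun t =>
    Nat.casesOn t 0 (fun t' => ⌊o (fm t') * J⌋₊) := ⟨_, rfl⟩
  have haas : ∀ t, aa (t + 1) = ⌊o (fm t) * J⌋₊ := fun t => by rw [haa]
  obtain ⟨kk, hkk⟩ : ∃ kk : F.Ω → ℕ → ℕ → ℝ, kk = fun ω t l =>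
    Nat.casesOn t (if l < k then κb ω l else if l < i then 0 else κN ω)
      (fun t' => ((ptr F J ω).1 (c l) : ℝ) / 2 ^ J -
        eval (bho J J (ptr F J ω)) (G (fm t') (ptr F J ω) l)) := ⟨_, rfl⟩
  have hkk0 : ∀ ω l, kk ω 0 l = if l < k then κb ω l else if l < i then 0 else κN ω :=
    fun ω l => by rw [hkk]; rfl
  have hkks : ∀ ω t l, kk ω (t + 1) l = ((ptr F J ω).1 (c l) : ℝ) / 2 ^ J -
        eval (bho J J (ptr F J ω)) (G (fm t) (ptr F J ω) l) := fun ω t l => by rw [hkk]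
  have hDD : D ≤ max D D' := le_max_left _ _
  have hDD' : D' ≤ max D D' := le_max_right _ _
  have hfol : ∀ ω, B ω → FolD c i k (max D D') (n + 1) P (ψ ω) (Q ω) gg aa (kk ω) (F.t ω) := by
    intro ω hω
    have hGDeg : ∀ t, t ≤ N → ∀ l, (G t (ptr F J ω) l).totalDegree ≤ D := fun t ht l =>
      (W.ev t ht).ball.degG _ l
    have hGDep : ∀ t, t ≤ N → ∀ l, DepC c l (G t (ptr F J ω) l) := fun t ht l =>
      (W.ev t ht).ball.depG _ l
    have hfb0 : fb 0 ≤ N := hfb 0 (Nat.zero_le _)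
    refine ⟨hci, hki, fun t l => ?_, fun t l => ?_, fun t l => ?_, fun t l => ?_,
      fun t ht l hl => ?_, fun t ht l hl x hx => ?_, ?_⟩
    · cases t with
      | zero =>
        rw [hψ0]
        split_ifs
        · exact (hGDeg _ hfb0 l).trans hDD
        · exact (hGDeg _ (hfN 0) l).trans hDD
        · exact (hGd _).trans hDD'
      | succ t => rw [hψs]; exact (hGDeg _ (hfN t) l).trans hDD
    · cases t with
      | zero =>
        rw [hψ0]
        split_ifs
        · exact hGDep _ hfb0 l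
        · exact hGDep _ (hfN 0) l
        · exact depC_mono (hGp _) (by omega)
      | succ t => rw [hψs]; exact hGDep _ (hfN t) l
    · cases t with
      | zero =>
        rw [hQ0]
        split_ifs
        · refine (totalDegree_add _ _).trans (max_le ((totalDegree_sub _ _).trans (max_le
            ((hGDeg _ hfb0 l).trans hDD) ((hGDeg _ (hfN 0) l).trans hDD))) ?_)
          rw [totalDegree_C]
          exact Nat.zero_le _
        · rw [totalDegree_zero]
          exact Nat.zero_le _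
        · refine (totalDegree_add _ _).trans (max_le ((totalDegree_sub _ _).trans (max_le
            ((hGd _).trans hDD') ((hGDeg _ (hfN 0) l).trans hDD))) ?_)
          rw [totalDegree_C]
          exact Nat.zero_le _
      | succ t =>
        rw [hQs]
        exact (totalDegree_sub _ _).trans (max_le
          ((deg_Gno (c l) (fun y => G (fm t) y l) (ptr F J ω) (hGDeg _ (hfN t) l)).trans hDD)
          ((hGDeg _ (hfN (t + 1)) l).trans hDD))
    · intro x x' h1 h2
      cases t with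
      | zero =>
        rw [hQ0]
        split_ifs
        · rw [map_add, map_add, map_sub, map_sub, hGDep _ hfb0 l x x' h1 h2,
            hGDep _ (hfN 0) l x x' h1 h2, eval_C, eval_C]
        · rw [map_zero, map_zero]
        · rw [map_add, map_add, map_sub, map_sub, depC_mono (hGp _) (show i ≤ l by omega)
            x x' h1 h2, hGDep _ (hfN 0) l x x' h1 h2, eval_C, eval_C]
      | succ t =>
        rw [hQs]
        rw [map_sub, map_sub, depC_Gno (c l) (fun y => G (fm t) y l) (ptr F J ω)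
          (hGDep _ (hfN t) l) x x' h1 h2, hGDep _ (hfN (t + 1)) l x x' h1 h2]
    · cases t with
      | zero =>
        rw [hQ0, hψ0, hψs, hkk0]
        split_ifs
        · rfl
        · rw [sub_self, map_zero, add_zero]
        · rfl
      | succ t =>
        rw [hQs, hψs, hψs, hkks]
        unfold Gno
        ring
    · -- the boxes
      cases t with
      | zero =>
        have hx' : NBx c (G (f 0) (ptr F J ω)) (g₀ (f 0)) ⌊o (f 0) * J⌋₊ (F.t ω) l x := by
          have e1 : ψ ω (0 + 1) = G (f 0) (ptr F J ω) := by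
            funext l'
            rw [hψs ω 0 l', hfm0]
          have e2 : gg (0 + 1) = g₀ (f 0) := by
            funext l'
            rw [hggs 0 l', hfm0]
          rw [e1, e2, haas, hfm0] at hx
          exact hx
        rw [hQ0, hggs, hfm0]
        split_ifs with h0 h1
        · rw [map_add, map_sub, eval_C]
          have h2 := hκb ω hω l (by omega) x (by rw [← hf0]; exact hx')
          rw [hyb_lo _ h0, ← hf0] at h2
          have e : eval x (G (fb 0) (ptr F J ω) l) - eval x (G (f 0) (ptr F J ω) l) + κb ω l =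
            eval x (G (fb 0) (ptr F J ω) l) + κb ω l - eval x (G (f 0) (ptr F J ω) l) := by ring
          rw [e]
          exact h2.trans (div_le_div_of_nonneg_right (pow_le_pow_right₀ (by norm_num) hPc)
            (by positivity))
        · rw [map_zero, abs_zero]
          positivity
        · have e0 : l = i := by omega
          subst e0
          rw [map_add, map_sub, eval_C]
          have h2 := hGb ω hω x hx'
          have e : eval x (GN (ptr F J ω)) - eval x (G (f 0) (ptr F J ω) l) + κN ω =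
            eval x (GN (ptr F J ω)) + κN ω - eval x (G (f 0) (ptr F J ω) l) := by ring
          rw [e]
          exact h2.trans (div_le_div_of_nonneg_right (pow_le_pow_right₀ (by norm_num)
            (by omega)) (by positivity))
      | succ t =>
        have ht' : t < n := by omega
        have hx' : NBx c (G (f (t + 1)) (ptr F J ω)) (g₀ (f (t + 1))) ⌊o (f (t + 1)) * J⌋₊
            (F.t ω) l x := by
          have e1 : ψ ω (t + 1 + 1) = G (f (t + 1)) (ptr F J ω) := by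
            funext l'
            rw [hψs ω (t + 1) l', hfe (t + 1) (by omega)]
          have e2 : gg (t + 1 + 1) = g₀ (f (t + 1)) := by
            funext l'
            rw [hggs (t + 1) l', hfe (t + 1) (by omega)]
          rw [e1, e2, haas, hfe (t + 1) (by omega)] at hx
          exact hx
        rw [hQs, map_sub, hggs, hfe (t + 1) (by omega), hfe t ht'.le]
        have h1 := W.bal (f t) (hf t ht'.le) (f (t + 1)) (hf (t + 1) ht') (jj t) (hst t ht').1
          (Nat.floor_le_floor (mul_le_mul_of_nonneg_right (hst t ht').2.2 hJ)) (hst t ht').2.1 ω hω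
          l (by omega) x hx'
        refine h1.trans ?_
        have hXn : L (t + 1) l - 3 * Y ≤ ((min (⌊b (f t) l * J⌋₊ +
            (⌊o (f (t + 1)) * J⌋₊ - ⌊o (f t) * J⌋₊)) (g₀ (f (t + 1)) l) : ℕ) : ℝ) := by
          obtain ⟨a1, -⟩ := W.g_num (hf t ht'.le) (show l ≤ r by omega)
          obtain ⟨a2, -⟩ := hg (t + 1) (by omega) l hl
          have h2 := (hlv t ht' l hl).1
          rw [hLd] at h2
          have e1 : L t l = lv (f t) l * J := by rw [hL]
          rw [Nat.cast_min, le_min_iff]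
          constructor
          · push_cast
            have h3 : (0 : ℝ) ≤ ((⌊o (f (t + 1)) * J⌋₊ - ⌊o (f t) * J⌋₊ : ℕ) : ℝ) :=
              Nat.cast_nonneg _
            linarith
          · linarith
        have h4 := (hg (t + 1) (by omega) l hl).2
        have h5 : ((Y + g₀ (f (t + 1)) l : ℕ) : ℝ) ≤ ((P + min (⌊b (f t) l * J⌋₊ +
            (⌊o (f (t + 1)) * J⌋₊ - ⌊o (f t) * J⌋₊)) (g₀ (f (t + 1)) l) : ℕ) : ℝ) := by
          rw [Nat.cast_add, Nat.cast_add]
          linarith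
        rw [div_le_div_iff₀ (by positivity) (by positivity)]
        refine (mul_le_mul_of_nonneg_right hfs (by positivity)).trans ?_
        rw [← pow_add, ← pow_add]
        exact pow_le_pow_right₀ (by norm_num) (by exact_mod_cast h5)
    · have h1 : ((n + 1 : ℕ) : ℝ) ≤ 2 ^ Y + 2 ^ Y := by
        push_cast
        have : (1 : ℝ) ≤ 2 ^ Y := one_le_pow₀ (by norm_num)
        linarith
      refine h1.trans ?_
      rw [← two_mul, ← pow_succ']
      exact pow_le_pow_right₀ (by norm_num) (by omega)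
  -- the numbers
  obtain ⟨σ', hσ'⟩ : ∃ σ' : ℕ → ℝ, σ' = fun t => S * s (t - 1) := ⟨_, rfl⟩
  obtain ⟨β', hβ'⟩ : ∃ β' : ℕ → ℝ, β' = fun t => b' * s (t - 1) := ⟨_, rfl⟩
  have hσs : ∀ t, σ' (t + 1) = S * s t := fun t => by rw [hσ']; rfl
  have hβs : ∀ t, β' (t + 1) = b' * s t := fun t => by rw [hβ']; rfl
  have hN : FolN gg k i (n + 1) P σ' β' := by
    refine ⟨by rw [hσs 0, hs0, mul_zero], by rw [hβs 0, hs0, mul_zero], fun t t' h1 h2 h3 => ?_,
      fun t t' h1 h2 h3 => ?_, fun t t' h1 h2 h3 l hl => ?_, fun t t' h1 h2 h3 l hl hli => ?_⟩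
    all_goals obtain ⟨t, rfl⟩ : ∃ u, t = u + 1 := ⟨t - 1, by omega⟩
    all_goals obtain ⟨t', rfl⟩ : ∃ u, t' = u + 1 := ⟨t' - 1, by omega⟩
    · rw [hσs, hσs]
      exact mul_le_mul_of_nonneg_left (hsm t t' (by omega) (by omega)) hS
    · rw [hσs, hσs, hβs, hβs, ← mul_sub, ← mul_sub]
      exact mul_le_mul_of_nonneg_right hSb (by linarith [hsm t t' (by omega) (by omega)])
    · rw [hσs, hσs, hggs, hggs, hfe t (by omega), hfe t' (by omega)]
      have a1 := (hg t' (by omega) l (by omega)).2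
      have a2 := (hg t (by omega) l (by omega)).1
      have a3 := hSl t t' (by omega) (by omega) l hl
      rw [hLd, hsd] at a3
      linarith
    · rw [hβs, hβs, hggs, hggs, hfe t (by omega), hfe t' (by omega)]
      have a1 := (hg t' (by omega) l (by omega)).1
      have a2 := (hg t (by omega) l (by omega)).2
      have a3 := hbl t t' (by omega) (by omega) l hl hli
      rw [hLd, hsd] at a3
      linarith
  have hpos : ∀ ω, B ω → ∀ t, 1 ≤ t → t ≤ n + 1 → ∀ l < i,
      |bt F ω (some (c l)) - eval (bt F ω) (ψ ω t l)| ≤ 2 ^ P / 2 ^ gg t l := by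
    intro ω hω t h1 h2 l hl
    obtain ⟨t, rfl⟩ : ∃ u, t = u + 1 := ⟨t - 1, by omega⟩
    rw [hψs, hggs, hfe t (by omega)]
    have h1 := (W.ev (f t) (hf t (by omega))).ball.pos ω hω l (by omega)
    exact h1.trans (div_le_div_of_nonneg_right (one_le_pow₀ (by norm_num)) (by positivity))
  -- the intermediate exponent
  have he : ∀ m' ≤ n, ∃ e : ℕ → ℝ, Btw (m' + 1) σ' β' e ∧
      (∀ t, 1 ≤ t → t ≤ m' + 1 → 2 * σ' t - q ≤ e t) ∧
      (∀ t, 1 ≤ t → t ≤ m' + 1 → e t + X ≤ β' t + P) := by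
    intro m' hm'
    rcases le_or_gt (2 * S) b' with h8 | h8
    · refine ⟨fun t => 2 * σ' t - q, fun t t' h1 h2 h3 => ?_, fun t _ _ => le_rfl,
        fun t h1 h2 => ?_⟩
      · obtain ⟨t, rfl⟩ : ∃ u, t = u + 1 := ⟨t - 1, by omega⟩
        obtain ⟨t', rfl⟩ : ∃ u, t' = u + 1 := ⟨t' - 1, by omega⟩
        have a1 := hsm t t' (by omega) (by omega)
        have a2 : 0 ≤ S * (s t' - s t) := mul_nonneg hS (by linarith)
        have a3 : 0 ≤ (b' - 2 * S) * (s t' - s t) := mul_nonneg (by linarith) (by linarith)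
        show σ' (t' + 1) - σ' (t + 1) ≤ 2 * σ' (t' + 1) - q - (2 * σ' (t + 1) - q) ∧
          2 * σ' (t' + 1) - q - (2 * σ' (t + 1) - q) ≤ β' (t' + 1) - β' (t + 1)
        rw [hσs, hσs, hβs, hβs]
        constructor
        · nlinarith
        · nlinarith
      · obtain ⟨t, rfl⟩ : ∃ u, t = u + 1 := ⟨t - 1, by omega⟩
        have a1 := hsnn t (by omega)
        have a3 : 0 ≤ (b' - 2 * S) * s t := mul_nonneg (by linarith) a1
        show 2 * σ' (t + 1) - q + X ≤ β' (t + 1) + P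
        rw [hσs, hβs]
        nlinarith
    · refine ⟨fun t => (2 * σ' (m' + 1) - q - β' (m' + 1)) + β' t,
        (hN.le (show m' + 1 ≤ n + 1 by omega)).btβ _, fun t h1 h2 => ?_, fun t h1 h2 => ?_⟩
      · obtain ⟨t, rfl⟩ : ∃ u, t = u + 1 := ⟨t - 1, by omega⟩
        have a1 := hsm t m' (by omega) hm'
        have a3 : 0 ≤ (2 * S - b') * (s m' - s t) := mul_nonneg (by linarith) (by linarith)
        show 2 * σ' (t + 1) - q ≤ (2 * σ' (m' + 1) - q - β' (m' + 1)) + β' (t + 1)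
        rw [hσs, hσs, hβs, hβs]
        nlinarith
      · have a1 := hsm m' n hm' le_rfl
        have a3 : 0 ≤ (2 * S - b') * (s n - s m') := mul_nonneg (by linarith) (by linarith)
        show (2 * σ' (m' + 1) - q - β' (m' + 1)) + β' t + X ≤ β' t + P
        rw [hσs, hβs]
        nlinarith
  -- the gradients
  obtain ⟨nn, hnn⟩ : ∃ nn : F.Ω → ℕ → ℕ → ℝ, nn = fun ω t j =>
    ncp c i (frm (ψ ω) k (t + 1)) (ψ ω (t + 1) i - ψ ω 0 i) (bt F ω) j := ⟨_, rfl⟩
  have hψ0i : ∀ ω, ψ ω 0 i = GN (ptr F J ω) := fun ω => by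
    rw [hψ0, if_neg (by omega), if_neg (lt_irrefl i)]
  have hψn : ∀ ω l, ψ ω (n + 1) l = G (f n) (ptr F J ω) l := fun ω l => by
    rw [hψs, hfe n le_rfl]
  have hgnh : ∀ ω j, gnh F c i (g₀ (f 0)) (fol G GN (fb 0) (f n) k i) (G (f n)) ω j =
      2 ^ g₀ (f 0) i / 2 ^ g₀ (f 0) j * nn ω n j := fun ω j => by
    have e1 : fol G GN (fb 0) (f n) k i (ptr F J ω) i = GN (ptr F J ω) := by
      unfold fol
      rw [if_neg (by omega), if_neg (lt_irrefl i)]
    unfold gnh
    rw [hnn, e1]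
    show _ = _ * ncp c i (frm (ψ ω) k (n + 1)) (ψ ω (n + 1) i - ψ ω 0 i) (bt F ω) j
    rw [hψ0i, hψn]
    congr 1
    refine ncp_charts (fun l hl => ?_) _ _ j
    unfold fol frm
    split_ifs with h
    · rw [hψ0, if_pos h]
    · rw [hψn]
  have hu : ∀ j, (0 : ℝ) < 2 ^ g₀ (f 0) i / 2 ^ g₀ (f 0) j := fun j => by positivity
  have hgg1 : ∀ l, gg 1 l = g₀ (f 0) l := fun l => by rw [hggs 0 l, hfm0]
  obtain ⟨U, hU⟩ : ∃ U : ℕ, U = C₂ * (A + 1) * Y := ⟨_, rfl⟩
  have hPY : C₂ * (P + 1) ≤ U := by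
    rw [hU, mul_assoc]
    refine Nat.mul_le_mul_left _ ?_
    rw [hP, add_mul, one_mul]
    omega
  have hEa : (2 : ℝ) ^ (Ca i * (P + 1)) ≤ 2 ^ U :=
    pow_le_pow_right₀ (by norm_num) ((Nat.mul_le_mul_right _ hCai).trans hPY)
  have hEb : (2 : ℝ) ^ (Cb i * (P + 1)) ≤ 2 ^ U :=
    pow_le_pow_right₀ (by norm_num) ((Nat.mul_le_mul_right _ hCbi).trans hPY)
  have h1s : ∀ ω, B ω → (∀ j < i, (k ≤ j → ∀ t t', t ≤ t' → t' ≤ n → ∀ l, j < l → l ≤ i →
        (lv (f t') j - lv (f t) j) * J ≤ (lv (f t') l - lv (f t) l) * J + Y) →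
        |nn ω n j| ≤ 2 ^ U * (2 ^ g₀ (f 0) j / 2 ^ g₀ (f 0) i)) ∧
      ∀ j < k, j < i → |nn ω n j - nn ω ks j| ≤
        2 ^ U * (2 ^ g₀ (f 0) j / 2 ^ (g₀ (f 0) i + X)) := by
    intro ω hω
    obtain ⟨a1, a2, a3⟩ := hone i (hfol ω hω) hN (x := bt F ω) (by omega) rfl (hpos ω hω)
    rw [hnn]
    refine ⟨fun j hj hjs => ?_, fun j hj hji => ?_⟩
    · rcases Nat.lt_or_ge j k with h | h
      · have h4 := a1 j h hj
        rw [hgg1, hgg1] at h4
        exact h4.trans (mul_le_mul_of_nonneg_right hEa (by positivity))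
      · have h4 := a2 j h hj (fun t t' h1 h2 h3 l hjl hli => by
          obtain ⟨t, rfl⟩ : ∃ u, t = u + 1 := ⟨t - 1, by omega⟩
          obtain ⟨t', rfl⟩ : ∃ u, t' = u + 1 := ⟨t' - 1, by omega⟩
          rw [hggs, hggs, hggs, hggs, hfe t (by omega), hfe t' (by omega)]
          have b1 := (hg t' (by omega) l (by omega)).1
          have b2 := (hg t (by omega) l (by omega)).2
          have b3 := (hg t' (by omega) j (by omega)).2
          have b4 := (hg t (by omega) j (by omega)).1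
          have b5 := hjs h t t' (by omega) (by omega) l hjl hli
          rw [hLd, hLd] at b5
          linarith)
        rw [hgg1, hgg1] at h4
        exact h4.trans (mul_le_mul_of_nonneg_right hEa (by positivity))
    · have h4 := a3 (ks + 1) X (by omega) (by omega) (by
        rw [hσs, hβs]
        have : (b' - S) * s ks = b' * s ks - S * s ks := by ring
        linarith) j hj hji
      rw [hgg1, hgg1] at h4
      exact h4.trans (mul_le_mul_of_nonneg_right hEa (by positivity))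
  -- two samples
  have h2s : ∀ ω ν, B ω → B ν → F.t ω = F.t ν → GN (ptr F J ω) = GN (ptr F J ν) →
      (∀ j < k, |hgt F c (fol G GN (fb 0) (f n) k i) ω j -
        hgt F c (fol G GN (fb 0) (f n) k i) ν j| ≤ 2 ^ 2 / 2 ^ (g₀ (f 0) j + q)) →
      (∀ l < k, G (fb 0) (ptr F J ω) l = G (fb 0) (ptr F J ν) l) → ∀ m' ≤ n, ks ≤ m' →
      (∀ t ≤ m', ∀ l ≤ i, G (f t) (ptr F J ω) l = G (f t) (ptr F J ν) l) →
      (∀ j < k, j < i → |nn ω m' j - nn ν m' j| ≤
        2 ^ U * (2 ^ g₀ (f 0) j / 2 ^ (g₀ (f 0) i + X))) ∧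
      (m' = n → |(eval (bt F ν) (G (f n) (ptr F J ν) i - GN (ptr F J ν)) -
        eval (bt F ω) (G (f n) (ptr F J ω) i - GN (ptr F J ω))) -
        ∑ j ∈ range k, nn ω n j * (hgt F c (fol G GN (fb 0) (f n) k i) ν j -
          hgt F c (fol G GN (fb 0) (f n) k i) ω j)| ≤ 2 ^ U / 2 ^ (g₀ (f 0) i + q + X)) := by
    intro ω ν hω hν ht hGN hh hG0 m' hm' hksm hGs
    obtain ⟨e, e1, e2, e3⟩ := he m' hm'
    have hmn : m' + 1 ≤ n + 1 := by omega
    have hψω : ∀ l < k, ψ ω 0 l = G (fb 0) (ptr F J ω) l := fun l hl => by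
      rw [hψ0, if_pos hl]
    have hhgt : ∀ χ : F.Ω, ∀ l < k, hgt F c (fol G GN (fb 0) (f n) k i) χ l =
        F.x χ (c l) - eval (bt F χ) (G (fb 0) (ptr F J χ) l) := fun χ l hl => by
      unfold hgt fol
      rw [if_pos hl]
    have hXm : (X : ℝ) ≤ β' (m' + 1) - σ' (m' + 1) + P := by
      rw [hσs, hβs]
      have a1 : (b' - S) * s ks ≤ (b' - S) * s m' :=
        mul_le_mul_of_nonneg_left (hsm ks m' hksm hm') (by linarith)
      have a2 : (b' - S) * s m' = b' * s m' - S * s m' := by ring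
      linarith
    have hσq : σ' (m' + 1) ≤ q := by
      rw [hσs]
      have := mul_le_mul_of_nonneg_left (hsm m' n hm' le_rfl) hS
      linarith
    obtain ⟨b1, b2⟩ := hmv i ((hfol ω hω).le hmn) (hN.le hmn) (e := e) (x := bt F ω)
      (y := bt F ν) (q := q) (X := X) (by omega) rfl
      (fun t h1 h2 l hl => hpos ω hω t h1 (by omega) l hl) ht.symm
      (fun l hl _ => by
        rw [hψω l hl, hgg1]
        have h2 := hh l hl
        rw [abs_sub_comm, hhgt ω l hl, hhgt ν l hl, ← hG0 l hl] at h2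
        exact h2)
      (fun l hl hli => by
        rw [hψs, hggs, hfe m' hm']
        have p1 := (W.ev (f m') (hf m' hm')).ball.pos ω hω l (by omega)
        have p2 := (W.ev (f m') (hf m' hm')).ball.pos ν hν l (by omega)
        rw [← hGs m' le_rfl l hli.le] at p2
        refine (abs_sub _ _).trans ((add_le_add p2 p1).trans ?_)
        rw [← add_div]
        refine div_le_div_of_nonneg_right ?_ (by positivity)
        have : (1 : ℝ) ≤ 2 ^ P := one_le_pow₀ (by norm_num)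
        rw [pow_succ]
        linarith) hσq hXm e1 e2 e3
    have hcharts : ∀ j, ncp c i (frm (ψ ω) k (m' + 1)) (ψ ω (m' + 1) i - ψ ω 0 i) (bt F ν) j =
        nn ν m' j := by
      intro j
      rw [hnn]
      show _ = ncp c i (frm (ψ ν) k (m' + 1)) (ψ ν (m' + 1) i - ψ ν 0 i) (bt F ν) j
      rw [hψ0i, hψ0i, hψs, hψs, hGN, hfe m' hm', hGs m' le_rfl i le_rfl]
      refine ncp_charts (fun l hl => ?_) _ _ j
      unfold frm
      split_ifs with h
      · rw [hψ0, hψ0, if_pos h, if_pos h, hG0 l h]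
      · rw [hψs, hψs, hfe m' hm', hGs m' le_rfl l hl.le]
    constructor
    · intro j hj hji
      have h4 := b1 j hj hji
      rw [hcharts j, abs_sub_comm, hgg1, hgg1] at h4
      have h5 : nn ω m' j = ncp c i (frm (ψ ω) k (m' + 1)) (ψ ω (m' + 1) i - ψ ω 0 i)
          (bt F ω) j := by rw [hnn]
      rw [h5]
      exact h4.trans (mul_le_mul_of_nonneg_right hEb (by positivity))
    · intro hmn'
      subst hmn'
      have h4 := b2 (by
        rw [hβs]
        linarith)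
      have h5 : ∀ j, nn ω m' j = ncp c i (frm (ψ ω) k (m' + 1)) (ψ ω (m' + 1) i - ψ ω 0 i)
          (bt F ω) j := fun j => by rw [hnn]
      simp only [← h5] at h4
      rw [hψ0i, hψn, hgg1] at h4
      rw [← hGs m' le_rfl i le_rfl, ← hGN]
      refine le_trans (le_of_eq ?_) (h4.trans (div_le_div_of_nonneg_right hEb (by positivity)))
      congr 2
      refine Finset.sum_congr rfl fun j hj => ?_
      have hj1 := Finset.mem_range.1 hj
      rw [hhgt ω j hj1, hhgt ν j hj1, ← hG0 j hj1, hψω j hj1]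
      rfl
  -- the conclusions
  have hexp1 : (2 : ℝ) ^ U * 4 ≤ 2 ^ ((C₂ * (A + 1) + A + 10) * Y) := by
    calc (2 : ℝ) ^ U * 4 = 2 ^ (U + 2) := by rw [pow_add]; norm_num
      _ ≤ _ := pow_le_pow_right₀ (by norm_num) (by
        rw [hU]
        nlinarith [Nat.zero_le (A * Y)])
  have hU0 : (0 : ℝ) < 2 ^ U := by positivity
  refine ⟨fun ω hω j hj hjs => ?_, fun ω ν hω hν ht hGN hh hG0 => ⟨fun hGs j hj => ?_,
    fun hGs => ⟨fun j hj => ?_, ?_⟩⟩⟩
  · rw [hgnh, abs_mul, abs_of_pos (hu j)]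
    refine (mul_le_mul_of_nonneg_left ((h1s ω hω).1 j hj hjs) (hu j).le).trans ?_
    refine le_trans (le_of_eq ?_) (show (2 : ℝ) ^ U ≤ _ by linarith)
    field_simp
  · have hji : j < i := by omega
    rw [hgnh, hgnh, ← mul_sub, abs_mul, abs_of_pos (hu j)]
    have g1 := (h1s ω hω).2 j hj hji
    have g2 := (h1s ν hν).2 j hj hji
    have g3 := (h2s ω ν hω hν ht hGN hh hG0 ks hks le_rfl hGs).1 j hj hji
    have e1 : nn ω n j - nn ν n j = (nn ω n j - nn ω ks j) + (nn ω ks j - nn ν ks j) -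
        (nn ν n j - nn ν ks j) := by ring
    have h4 : |nn ω n j - nn ν n j| ≤ 3 * (2 ^ U *
        (2 ^ g₀ (f 0) j / 2 ^ (g₀ (f 0) i + X))) := by
      rw [e1]
      refine (abs_sub _ _).trans ((add_le_add ((abs_add_le _ _).trans (add_le_add g1 g3))
        g2).trans (le_of_eq (by ring)))
    refine (mul_le_mul_of_nonneg_left h4 (hu j).le).trans ?_
    calc (2 : ℝ) ^ g₀ (f 0) i / 2 ^ g₀ (f 0) j * (3 * (2 ^ U *
          (2 ^ g₀ (f 0) j / 2 ^ (g₀ (f 0) i + X)))) = 2 ^ U * 3 / 2 ^ X := by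
          rw [pow_add 2 (g₀ (f 0) i)]
          field_simp
      _ ≤ _ := div_le_div_of_nonneg_right (by linarith) (by positivity)
  · have hji : j < i := by omega
    rw [hgnh, hgnh, ← mul_sub, abs_mul, abs_of_pos (hu j)]
    have g3 := (h2s ω ν hω hν ht hGN hh hG0 n le_rfl hks hGs).1 j hj hji
    refine (mul_le_mul_of_nonneg_left g3 (hu j).le).trans ?_
    calc (2 : ℝ) ^ g₀ (f 0) i / 2 ^ g₀ (f 0) j * (2 ^ U *
          (2 ^ g₀ (f 0) j / 2 ^ (g₀ (f 0) i + X))) = 2 ^ U / 2 ^ X := by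
          rw [pow_add 2 (g₀ (f 0) i)]
          field_simp
      _ ≤ _ := div_le_div_of_nonneg_right (by linarith) (by positivity)
  · have g3 := (h2s ω ν hω hν ht hGN hh hG0 n le_rfl hks hGs).2 rfl
    have hpx := (W.ev (f n) (hf n le_rfl)).ball.pos ω hω i (by omega)
    have hpy := (W.ev (f n) (hf n le_rfl)).ball.pos ν hν i (by omega)
    have hhi : ∀ χ : F.Ω, hgt F c (fol G GN (fb 0) (f n) k i) χ i =
        F.x χ (c i) - eval (bt F χ) (GN (ptr F J χ)) := fun χ => by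
      unfold hgt fol
      rw [if_neg (by omega), if_neg (lt_irrefl i)]
    have hm4 : g₀ (f 0) i + q + X ≤ g₀ (f n) i + P := by
      have h1 := (hg 0 (Nat.zero_le n) i le_rfl).2
      have h2 := (hg n le_rfl i le_rfl).1
      have h4 := hbl 0 n (Nat.zero_le n) le_rfl i hki le_rfl
      rw [hLd, hsd, hs0, sub_zero] at h4
      have h6 : ((g₀ (f 0) i + q + X : ℕ) : ℝ) ≤ ((g₀ (f n) i + P : ℕ) : ℝ) := by
        push_cast
        linarith
      exact_mod_cast h6
    have e1 : 2 ^ (g₀ (f 0) i + q) * (hgt F c (fol G GN (fb 0) (f n) k i) ω i -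
            hgt F c (fol G GN (fb 0) (f n) k i) ν i) -
          ∑ j ∈ range k,
            gnh F c i (g₀ (f 0)) (fol G GN (fb 0) (f n) k i) (G (f n)) ω j *
            (2 ^ (g₀ (f 0) j + q) * (hgt F c (fol G GN (fb 0) (f n) k i) ω j -
              hgt F c (fol G GN (fb 0) (f n) k i) ν j)) =
        -(2 ^ (g₀ (f 0) i + q) * ((eval (bt F ν) (G (f n) (ptr F J ν) i -
          GN (ptr F J ν)) - eval (bt F ω) (G (f n) (ptr F J ω) i -
          GN (ptr F J ω))) - ∑ j ∈ range k, nn ω n j *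
            (hgt F c (fol G GN (fb 0) (f n) k i) ν j -
              hgt F c (fol G GN (fb 0) (f n) k i) ω j))) +
        2 ^ (g₀ (f 0) i + q) * (F.x ω (c i) - eval (bt F ω) (G (f n) (ptr F J ω) i)) -
        2 ^ (g₀ (f 0) i + q) * (F.x ν (c i) - eval (bt F ν) (G (f n) (ptr F J ν) i)) := by
      have e2 : ∑ j ∈ range k,
            gnh F c i (g₀ (f 0)) (fol G GN (fb 0) (f n) k i) (G (f n)) ω j *
            (2 ^ (g₀ (f 0) j + q) * (hgt F c (fol G GN (fb 0) (f n) k i) ω j -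
              hgt F c (fol G GN (fb 0) (f n) k i) ν j)) =
          -(2 ^ (g₀ (f 0) i + q) * ∑ j ∈ range k, nn ω n j *
            (hgt F c (fol G GN (fb 0) (f n) k i) ν j -
              hgt F c (fol G GN (fb 0) (f n) k i) ω j)) := by
        rw [Finset.mul_sum, ← Finset.sum_neg_distrib]
        refine Finset.sum_congr rfl fun j _ => ?_
        rw [hgnh, pow_add, pow_add]
        field_simp
        ring
      rw [e2, hhi, hhi, map_sub, map_sub]
      ring
    rw [e1]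
    have hA' : (0 : ℝ) < 2 ^ (g₀ (f 0) i + q) := by positivity
    have f1 : |2 ^ (g₀ (f 0) i + q) * ((eval (bt F ν) (G (f n) (ptr F J ν) i -
          GN (ptr F J ν)) - eval (bt F ω) (G (f n) (ptr F J ω) i -
          GN (ptr F J ω))) - ∑ j ∈ range k, nn ω n j *
            (hgt F c (fol G GN (fb 0) (f n) k i) ν j -
              hgt F c (fol G GN (fb 0) (f n) k i) ω j))| ≤ 2 ^ U / 2 ^ X := by
      rw [abs_mul, abs_of_pos hA']
      refine (mul_le_mul_of_nonneg_left g3 hA'.le).trans (le_of_eq ?_)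
      rw [pow_add 2 (g₀ (f 0) i + q) X]
      field_simp
    have f2 : ∀ v : ℝ, |v| ≤ 1 / 2 ^ g₀ (f n) i → |2 ^ (g₀ (f 0) i + q) * v| ≤
        2 ^ P / 2 ^ X := by
      intro v hv
      rw [abs_mul, abs_of_pos hA']
      refine (mul_le_mul_of_nonneg_left hv hA'.le).trans ?_
      rw [mul_one_div, div_le_div_iff₀ (by positivity) (by positivity), ← pow_add, ← pow_add]
      exact pow_le_pow_right₀ (by norm_num) (by omega)
    rw [← abs_neg] at f1
    refine (abs_sub _ _).trans ((add_le_add ((abs_add_le _ _).trans (add_le_add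
      f1 (f2 _ hpx))) (f2 _ hpy)).trans ?_)
    rw [← add_div, ← add_div]
    refine div_le_div_of_nonneg_right ?_ (by positivity)
    have i1 : (2 : ℝ) ^ U ≤ 2 ^ (U + P) := pow_le_pow_right₀ (by norm_num) (by omega)
    have i2 : (2 : ℝ) ^ P ≤ 2 ^ (U + P) := pow_le_pow_right₀ (by norm_num) (by omega)
    have i3 : 4 * (2 : ℝ) ^ (U + P) ≤ 2 ^ ((C₂ * (A + 1) + A + 10) * Y) := by
      calc 4 * (2 : ℝ) ^ (U + P) = 2 ^ (U + P + 2) := by
            rw [pow_add _ (U + P)]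
            ring
        _ ≤ _ := pow_le_pow_right₀ (by norm_num) (by
            rw [hU, hP]
            nlinarith)
    have i4 : (0 : ℝ) < 2 ^ (U + P) := by positivity
    linarith

end Pool.GF64
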