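import Pool.Agent.H23.D2.V0g

/-!
# Derivatives on dilated natural boxes; vectors along a chain of charts

`box_dl`: `box_all` at a point of a dilated box. `FolD`: a chain of charts `ψ 0, …, ψ n`. `frm`: the
frame of the charts `ψ 0` for the places below `k` and of the charts `ψ n` for the others. `fst_bd`:
the natural components, at every window, of a vector with small components in the frame. `snd_bd`:
the same for a second derivative.
-/

set_option autoImplicit false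

namespace Pool.GF64

open Finset Real MvPolynomial
open Pool.Agent.H49.Ent Pool.Agent.H32.Dense Pool.STK Pool.KA Pool.KSAT Pool.K2S Pool.PB Pool.S6C
open Pool.GEN Pool.CHT Pool.CHX Pool.ISO
open Pool.D2R

variable {m : ℕ}

theorem hs_padd (P Q : MvPolynomial (Option (Fin m)) ℝ) (x V W : Option (Fin m) → ℝ) :
    hs (P + Q) x V W = hs P x V W + hs Q x V W := by
  unfold hs
  rw [← Finset.sum_add_distrib]
  refine Finset.sum_congr rfl fun o _ => ?_
  rw [map_add, dd_padd]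
  ring

/-- **First and second derivatives at a point of a dilated natural box.** -/
theorem box_dl (r K D : ℕ) : ∃ C : ℕ, 1 ≤ C ∧ ∀ {m : ℕ} {c : ℕ → Fin m}
    {ψ : ℕ → MvPolynomial (Option (Fin m)) ℝ} {Q : MvPolynomial (Option (Fin m)) ℝ}
    {g : ℕ → ℕ} {a : ℕ} {M : ℝ} {x : Option (Fin m) → ℝ} {p : ℕ}, Set.InjOn c (Set.Iio r) →
    (∀ l, (ψ l).totalDegree ≤ K) → (∀ l, DepC c l (ψ l)) → DepC c r Q → Q.totalDegree ≤ D →
    0 ≤ M → (∀ b, NBx c ψ g a (x none) r b → |eval b Q| ≤ M) →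
    (∀ l < r, |x (some (c l)) - eval x (ψ l)| ≤ 2 ^ p / 2 ^ g l) →
    (∀ V, |dd Q x V| ≤ 2 ^ (C * (p + 1)) * M * nrm c ψ g a r x V) ∧
    ∀ V V' Z, |hs Q x V V' + dd Q x Z| ≤ 2 ^ (C * (p + 1)) * M *
      (nrm c ψ g a r x V * nrm c ψ g a r x V' + nrz c ψ g a r x V V' Z) := by
  obtain ⟨c₀, D₁, -, hdil⟩ := nbx_dil (r + 1) (fun _ => max K D)
  obtain ⟨C₁, hC₁, hall⟩ := box_all r K D
  obtain ⟨c₁, hc₁⟩ := pow_unbounded_of_one_lt C₁ (one_lt_two (α := ℝ))
  refine ⟨c₁ + c₀ + D₁ + 1, by omega, ?_⟩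
  intro m c ψ Q g a M x p hc hψ hdep hQ hQd hM hbox hx
  obtain ⟨ψ', hψ'⟩ : ∃ ψ' : ℕ → MvPolynomial (Option (Fin m)) ℝ, ψ' = fun l => ψ l +
    MvPolynomial.C (x (some (c l)) - eval x (ψ l)) := ⟨_, rfl⟩
  have hev : ∀ l b, eval b (ψ' l) = eval b (ψ l) + (x (some (c l)) - eval x (ψ l)) := by
    intro l b
    rw [hψ', map_add, eval_C]
  have hdd : ∀ l b V, dd (ψ' l) b V = dd (ψ l) b V := by
    intro l b V
    rw [hψ', dd_padd, dd_C, add_zero]
  have hhs : ∀ l b V W, hs (ψ' l) b V W = hs (ψ l) b V W := by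
    intro l b V W
    rw [hψ', hs_padd, hs_C, add_zero]
  have hnrm : ∀ V, nrm c ψ' g a r x V = nrm c ψ g a r x V := by
    intro V
    unfold nrm
    simp only [hdd]
  have hnrz : ∀ V V' Z, nrz c ψ' g a r x V V' Z = nrz c ψ g a r x V V' Z := by
    intro V V' Z
    unfold nrz
    simp only [hdd, hhs]
  have hM' : 0 ≤ 2 ^ (c₀ + (p + 1) * D₁) * M := by positivity
  have h1 := hall (c := c) (ψ := ψ') (Q := Q) (g := g) (a := a)
    (M := 2 ^ (c₀ + (p + 1) * D₁) * M) (x := x) hc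
    (fun l => by
      rw [hψ']
      refine (totalDegree_add _ _).trans (max_le (hψ l) ?_)
      rw [totalDegree_C]
      exact Nat.zero_le _)
    (fun l b b' g1 g2 => by rw [hev, hev, hdep l b b' g1 g2]) hQ hQd hM'
    (fun b hb => by
      refine hdil (c := c) (i := r) (G := ψ) (Q := Q) (g := g) (a := a) (t := x none) (M := M)
        (p + 1) (Nat.lt_succ_self r) hc (fun l => (hψ l).trans (le_max_left _ _)) hdep hQ
        (hQd.trans (le_max_right _ _)) hM hbox b hb.1 fun l hl => ?_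
      have g1 := hb.2 l hl
      rw [hev] at g1
      have g2 := hx l hl
      have g3 : b (some (c l)) - eval b (ψ l) = (b (some (c l)) - (eval b (ψ l) +
        (x (some (c l)) - eval x (ψ l)))) + (x (some (c l)) - eval x (ψ l)) := by ring
      rw [g3]
      refine (abs_add_le _ _).trans ((add_le_add g1 g2).trans ?_)
      rw [← add_div]
      refine div_le_div_of_nonneg_right ?_ (by positivity)
      have g4 : (1 : ℝ) ≤ 2 ^ p := one_le_pow₀ (by norm_num)
      rw [pow_succ]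
      linarith)
    (fun l _ => by
      rw [hev, add_sub_cancel, sub_self, abs_zero]
      positivity)
  have h2 : C₁ * (2 ^ (c₀ + (p + 1) * D₁) * M) ≤ 2 ^ ((c₁ + c₀ + D₁ + 1) * (p + 1)) * M := by
    rw [← mul_assoc]
    refine mul_le_mul_of_nonneg_right ?_ hM
    calc C₁ * 2 ^ (c₀ + (p + 1) * D₁) ≤ 2 ^ c₁ * 2 ^ (c₀ + (p + 1) * D₁) :=
          mul_le_mul_of_nonneg_right hc₁.le (by positivity)
      _ = 2 ^ (c₁ + (c₀ + (p + 1) * D₁)) := (pow_add _ _ _).symm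
      _ ≤ _ := pow_le_pow_right₀ (by norm_num) (by nlinarith [Nat.zero_le p])
  refine ⟨fun V => ?_, fun V V' Z => ?_⟩
  · have h3 := h1.1 V
    rw [hnrm] at h3
    exact h3.trans (mul_le_mul_of_nonneg_right h2 (nrm_nonneg _ _ _ _ _ _ _))
  · have h3 := h1.2 V V' Z
    rw [hnrm, hnrm, hnrz] at h3
    exact h3.trans (mul_le_mul_of_nonneg_right h2 (add_nonneg (mul_nonneg
      (nrm_nonneg _ _ _ _ _ _ _) (nrm_nonneg _ _ _ _ _ _ _)) (nrz_nonneg _ _ _ _ _ _ _ _ _)))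

/-! ### Chains of charts -/

/-- **A chain of charts.** -/
structure FolD {m : ℕ} (c : ℕ → Fin m) (r k D n P : ℕ)
    (ψ Q : ℕ → ℕ → MvPolynomial (Option (Fin m)) ℝ) (g : ℕ → ℕ → ℕ) (a : ℕ → ℕ)
    (κ : ℕ → ℕ → ℝ) (t₀ : ℝ) : Prop where
  inj : Set.InjOn c (Set.Iio (r + 1))
  kr : k ≤ r
  dψ : ∀ t l, (ψ t l).totalDegree ≤ D
  pψ : ∀ t l, DepC c l (ψ t l)
  dQ : ∀ t l, (Q t l).totalDegree ≤ D
  pQ : ∀ t l, DepC c l (Q t l)
  eq : ∀ t < n, ∀ l ≤ r, Q t l = ψ t l - ψ (t + 1) l + MvPolynomial.C (κ t l)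
  box : ∀ t < n, ∀ l ≤ r, ∀ b, NBx c (ψ (t + 1)) (g (t + 1)) (a (t + 1)) t₀ l b →
    |eval b (Q t l)| ≤ 2 ^ P / 2 ^ g (t + 1) l
  nP : (n : ℝ) ≤ 2 ^ P

/-- A shorter chain. -/
theorem FolD.le {c : ℕ → Fin m} {r k D n n' P : ℕ} {ψ Q : ℕ → ℕ → MvPolynomial (Option (Fin m)) ℝ}
    {g : ℕ → ℕ → ℕ} {a : ℕ → ℕ} {κ : ℕ → ℕ → ℝ} {t₀ : ℝ} (h : FolD c r k D n P ψ Q g a κ t₀)
    (hn : n' ≤ n) : FolD c r k D n' P ψ Q g a κ t₀ where
  inj := h.inj
  kr := h.kr
  dψ := h.dψ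
  pψ := h.pψ
  dQ := h.dQ
  pQ := h.pQ
  eq := fun t ht => h.eq t (by omega)
  box := fun t ht => h.box t (by omega)
  nP := le_trans (by exact_mod_cast hn) h.nP

/-- A larger constant. -/
theorem FolD.mono {c : ℕ → Fin m} {r k D n P P' : ℕ}
    {ψ Q : ℕ → ℕ → MvPolynomial (Option (Fin m)) ℝ}
    {g : ℕ → ℕ → ℕ} {a : ℕ → ℕ} {κ : ℕ → ℕ → ℝ} {t₀ : ℝ} (h : FolD c r k D n P ψ Q g a κ t₀)
    (hP : P ≤ P') : FolD c r k D n P' ψ Q g a κ t₀ where
  inj := h.inj
  kr := h.kr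
  dψ := h.dψ
  pψ := h.pψ
  dQ := h.dQ
  pQ := h.pQ
  eq := h.eq
  box := fun t ht l hl b hb => (h.box t ht l hl b hb).trans (div_le_div_of_nonneg_right
    (pow_le_pow_right₀ (by norm_num) hP) (by positivity))
  nP := h.nP.trans (pow_le_pow_right₀ (by norm_num) hP)

/-- **The frame.** -/
def frm (ψ : ℕ → ℕ → MvPolynomial (Option (Fin m)) ℝ) (k n l : ℕ) :
    MvPolynomial (Option (Fin m)) ℝ := if l < k then ψ 0 l else ψ n l

/-- Growth of a bound at the places of the small slopes. -/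
def Lo (g : ℕ → ℕ → ℕ) (k n P : ℕ) (E : ℕ → ℝ) : Prop := ∀ l < k, ∀ t' t, 1 ≤ t' → t' ≤ t →
  t ≤ n → E t' / 2 ^ g t' l ≤ 2 ^ P * (E t / 2 ^ g t l)

/-- Decay of a bound at the places of the large slopes. -/
def Hi (g : ℕ → ℕ → ℕ) (k j₀ r n P : ℕ) (E : ℕ → ℝ) : Prop := ∀ l, k ≤ l → j₀ ≤ l → l < r →
  ∀ t t', 1 ≤ t → t ≤ t' → t' ≤ n → E t' / 2 ^ g t' l ≤ 2 ^ P * (E t / 2 ^ g t l)

section chain

variable {c : ℕ → Fin m} {r k D n P : ℕ} {ψ Q : ℕ → ℕ → MvPolynomial (Option (Fin m)) ℝ}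
  {g : ℕ → ℕ → ℕ} {a : ℕ → ℕ} {κ : ℕ → ℕ → ℝ} {t₀ : ℝ}

theorem frm_deg (H : FolD c r k D n P ψ Q g a κ t₀) (n' l : ℕ) :
    (frm ψ k n' l).totalDegree ≤ D := by
  unfold frm
  split_ifs
  exacts [H.dψ _ _, H.dψ _ _]

theorem frm_dep (H : FolD c r k D n P ψ Q g a κ t₀) (n' l : ℕ) : DepC c l (frm ψ k n' l) := by
  unfold frm
  split_ifs
  exacts [H.pψ _ _, H.pψ _ _]

/-- The telescoping sum of the derivatives. -/
theorem FolD.tel (H : FolD c r k D n P ψ Q g a κ t₀) {l t₁ t₂ : ℕ} (hl : l ≤ r) (h1 : t₁ ≤ t₂)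
    (h2 : t₂ ≤ n) (x W : Option (Fin m) → ℝ) :
    dd (ψ t₁ l) x W - dd (ψ t₂ l) x W = ∑ t ∈ Finset.Ico t₁ t₂, dd (Q t l) x W := by
  induction t₂, h1 using Nat.le_induction with
  | base => rw [Finset.Ico_self, Finset.sum_empty, sub_self]
  | succ t ht ih =>
    rw [Finset.sum_Ico_succ_top ht, ← ih (by omega), H.eq t (by omega) l hl, dd_padd, dd_C,
      dd_sub]
    ring

/-- The telescoping sum of the second derivatives. -/
theorem FolD.tel2 (H : FolD c r k D n P ψ Q g a κ t₀) {l t₁ t₂ : ℕ} (hl : l ≤ r) (h1 : t₁ ≤ t₂)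
    (h2 : t₂ ≤ n) (x V W Z : Option (Fin m) → ℝ) :
    (hs (ψ t₁ l) x V W + dd (ψ t₁ l) x Z) - (hs (ψ t₂ l) x V W + dd (ψ t₂ l) x Z) =
      ∑ t ∈ Finset.Ico t₁ t₂, (hs (Q t l) x V W + dd (Q t l) x Z) := by
  induction t₂, h1 using Nat.le_induction with
  | base => rw [Finset.Ico_self, Finset.sum_empty, sub_self]
  | succ t ht ih =>
    rw [Finset.sum_Ico_succ_top ht, ← ih (by omega), H.eq t (by omega) l hl, dd_padd, dd_C,
      dd_sub, hs_padd, hs_C, hs_sub]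
    ring

/-- The telescoping sum of the values. -/
theorem FolD.tel0 (H : FolD c r k D n P ψ Q g a κ t₀) {l t₁ t₂ : ℕ} (hl : l ≤ r) (h1 : t₁ ≤ t₂)
    (h2 : t₂ ≤ n) (x y : Option (Fin m) → ℝ) :
    (eval y (ψ t₁ l) - eval x (ψ t₁ l)) - (eval y (ψ t₂ l) - eval x (ψ t₂ l)) =
      ∑ t ∈ Finset.Ico t₁ t₂, (eval y (Q t l) - eval x (Q t l)) := by
  induction t₂, h1 using Nat.le_induction with
  | base => rw [Finset.Ico_self, Finset.sum_empty, sub_self]
  | succ t ht ih =>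
    rw [Finset.sum_Ico_succ_top ht, ← ih (by omega), H.eq t (by omega) l hl]
    simp only [map_add, map_sub, eval_C]
    ring

end chain

/-- A sum of bounded terms. -/
theorem sum_bd {n P u : ℕ} {T : ℝ} (hn : (n : ℝ) ≤ 2 ^ P) (hT : 0 ≤ T) (f : ℕ → ℝ) {t₁ t₂ : ℕ}
    (h2 : t₂ ≤ n) (hf : ∀ t, t₁ ≤ t → t < t₂ → |f t| ≤ 2 ^ u * T) :
    |∑ t ∈ Finset.Ico t₁ t₂, f t| ≤ 2 ^ (u + P) * T := by
  refine (Finset.abs_sum_le_sum_abs _ _).trans ((Finset.sum_le_sum fun t ht => ?_).trans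
    (le_trans (le_of_eq (Finset.sum_const (2 ^ u * T))) ?_))
  · rw [Finset.mem_Ico] at ht
    exact hf t ht.1 ht.2
  · rw [Nat.card_Ico, nsmul_eq_mul, ← mul_assoc]
    refine mul_le_mul_of_nonneg_right ?_ hT
    have h3 : ((t₂ - t₁ : ℕ) : ℝ) ≤ 2 ^ P := by
      refine le_trans ?_ hn
      exact_mod_cast (by omega : t₂ - t₁ ≤ n)
    calc ((t₂ - t₁ : ℕ) : ℝ) * 2 ^ u ≤ 2 ^ P * 2 ^ u :=
          mul_le_mul_of_nonneg_right h3 (by positivity)
      _ = _ := by rw [← pow_add, add_comm]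

/-- **The natural components, at every window, of a vector with small components in the frame.** -/
theorem fst_bd (r D : ℕ) : ∃ C : ℕ, 1 ≤ C ∧ ∀ {m : ℕ} {c : ℕ → Fin m} {k n P : ℕ}
    {ψ Q : ℕ → ℕ → MvPolynomial (Option (Fin m)) ℝ} {g : ℕ → ℕ → ℕ} {a : ℕ → ℕ}
    {κ : ℕ → ℕ → ℝ} {t₀ : ℝ} (_ : FolD c r k D n P ψ Q g a κ t₀)
    {x W : Option (Fin m) → ℝ} {p j₀ l : ℕ} {E : ℕ → ℝ}, l ≤ r → x none = t₀ →
    (∀ t, 1 ≤ t → t ≤ n → ∀ l', l' + 1 < l →
      |x (some (c l')) - eval x (ψ t l')| ≤ 2 ^ p / 2 ^ g t l') → W none = 0 →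
    (∀ l' < j₀, W (some (c l')) = 0) → (∀ t, 0 ≤ E t) →
    (∀ l' < l, ∀ t, 1 ≤ t → t ≤ n →
      |W (some (c l')) - dd (frm ψ k n l') x W| ≤ E t / 2 ^ g t l') →
    Lo g k n P E → Hi g k j₀ r n P E → ∀ t, 1 ≤ t → t ≤ n → ∀ l' < l,
      |W (some (c l')) - dd (ψ t l') x W| ≤ 2 ^ (C * (P + p + 1)) * (E t / 2 ^ g t l') := by
  have h := fun l : ℕ => box_dl l D D
  choose Cb hCb hbox using h
  obtain ⟨C₁, hC₁⟩ : ∃ C₁ : ℕ, C₁ = ∑ l ∈ range (r + 1), Cb l := ⟨_, rfl⟩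
  have hCl : ∀ l ≤ r, Cb l ≤ C₁ := by
    intro l hl
    rw [hC₁]
    exact Finset.single_le_sum (f := Cb) (fun _ _ => Nat.zero_le _)
      (Finset.mem_range.2 (Nat.lt_succ_of_le hl))
  obtain ⟨A, hA⟩ : ∃ A : ℕ, A = C₁ + r + 5 := ⟨_, rfl⟩
  refine ⟨A * (r + 1), Nat.mul_pos (by omega) (by omega), ?_⟩
  intro m c k n P ψ Q g a κ t₀ H x W p j₀ l E hlr hx0 hx hW0 hWj hE hfr hLo hHi
  have key : ∀ l₁ ≤ l, ∀ t, 1 ≤ t → t ≤ n → ∀ l' < l₁, |W (some (c l')) - dd (ψ t l') x W| ≤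
      2 ^ (A * l₁ * (P + p + 1)) * (E t / 2 ^ g t l') := by
    intro l₁
    induction l₁ with
    | zero => exact fun _ t _ _ l' hl' => absurd hl' (Nat.not_lt_zero l')
    | succ l₁ ih =>
      intro hl₁
      have ih' := ih (by omega)
      intro t ht1 htn l' hl'
      have hT0 : 0 ≤ E t / 2 ^ g t l' := div_nonneg (hE t) (by positivity)
      rcases Nat.lt_or_ge l' l₁ with h1 | h1
      · refine (ih' t ht1 htn l' h1).trans (mul_le_mul_of_nonneg_right
          (pow_le_pow_right₀ (by norm_num) ?_) hT0)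
        exact Nat.mul_le_mul_right _ (Nat.mul_le_mul_left _ (Nat.le_succ _))
      have e : l' = l₁ := by omega
      subst e
      rcases Nat.lt_or_ge l' j₀ with h0 | h0
      · have e1 : dd (ψ t l') x W = 0 := by
          rw [dd_congr (V := 0) (H.pψ t l') x hW0 fun j hj => hWj j (by omega)]
          unfold dd
          simp
        rw [hWj l' h0, e1, sub_zero, abs_zero]
        positivity
      -- one step
      obtain ⟨u, hu⟩ : ∃ u : ℕ, u = C₁ * (p + 1) + P + r + A * l' * (P + p + 1) := ⟨_, rfl⟩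
      have hst : ∀ t' < n, |dd (Q t' l') x W| ≤ 2 ^ u * (E (t' + 1) / 2 ^ g (t' + 1) l') := by
        intro t' ht'
        obtain ⟨b1, -⟩ := hbox l' (c := c) (ψ := ψ (t' + 1)) (Q := Q t' l') (g := g (t' + 1))
          (a := a (t' + 1)) (M := 2 ^ P / 2 ^ g (t' + 1) l') (x := x) (p := p)
          (H.inj.mono fun y hy => by
            rw [Set.mem_Iio] at hy ⊢
            omega) (H.dψ _) (H.pψ _) (H.pQ _ _) (H.dQ _ _) (by positivity)
          (fun b hb => H.box t' ht' l' (by omega) b (by rw [← hx0]; exact hb))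
          (fun l'' hl'' => hx (t' + 1) (by omega) (by omega) l'' (by omega))
        refine (b1 W).trans ?_
        have b2 : nrm c (ψ (t' + 1)) (g (t' + 1)) (a (t' + 1)) l' x W ≤
            (l' + 1) * (2 ^ (A * l' * (P + p + 1)) * E (t' + 1)) := by
          refine nrm_le ?_ fun l'' hl'' => ?_
          · rw [hW0, abs_zero]
            have := hE (t' + 1)
            positivity
          · refine (ih' (t' + 1) (by omega) (by omega) l'' hl'').trans (le_of_eq (by ring))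
        have b3 : ((l' : ℝ) + 1) ≤ 2 ^ r := by
          have h5 : l' + 1 ≤ r := by omega
          have h6 : ((l' + 1 : ℕ) : ℝ) ≤ ((2 ^ r : ℕ) : ℝ) := by
            exact_mod_cast h5.trans (Nat.lt_two_pow_self).le
          push_cast at h6
          exact h6
        have hE' := hE (t' + 1)
        calc 2 ^ (Cb l' * (p + 1)) * (2 ^ P / 2 ^ g (t' + 1) l') *
              nrm c (ψ (t' + 1)) (g (t' + 1)) (a (t' + 1)) l' x W ≤
            2 ^ (C₁ * (p + 1)) * (2 ^ P / 2 ^ g (t' + 1) l') *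
              (2 ^ r * (2 ^ (A * l' * (P + p + 1)) * E (t' + 1))) := by
              refine mul_le_mul (mul_le_mul_of_nonneg_right (pow_le_pow_right₀ (by norm_num)
                (Nat.mul_le_mul_right _ (hCl l' (by omega)))) (by positivity))
                (b2.trans (mul_le_mul_of_nonneg_right b3 (by positivity)))
                (nrm_nonneg _ _ _ _ _ _ _) (by positivity)
          _ = _ := by
              rw [hu, pow_add, pow_add, pow_add]
              ring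
      -- the sum
      have hsum : |(if l' < k then dd (ψ 0 l') x W - dd (ψ t l') x W else
          -(dd (ψ t l') x W - dd (ψ n l') x W))| ≤ 2 ^ (u + P + P) * (E t / 2 ^ g t l') := by
        split_ifs with hk
        · rw [H.tel (by omega) (Nat.zero_le t) htn]
          refine sum_bd H.nP hT0 _ htn fun t' _ ht' => ?_
          refine (hst t' (by omega)).trans ?_
          have h5 := hLo l' hk (t' + 1) t (by omega) (by omega) htn
          rw [pow_add, mul_assoc]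
          exact mul_le_mul_of_nonneg_left h5 (by positivity)
        · rw [H.tel (by omega) htn le_rfl, abs_neg]
          refine sum_bd H.nP hT0 _ le_rfl fun t' ht' ht'n => ?_
          refine (hst t' ht'n).trans ?_
          have h5 := hHi l' (by omega) h0 (by omega) t (t' + 1) ht1 (by omega) (by omega)
          rw [pow_add, mul_assoc]
          exact mul_le_mul_of_nonneg_left h5 (by positivity)
      have e2 : W (some (c l')) - dd (ψ t l') x W = (W (some (c l')) - dd (frm ψ k n l') x W) +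
          (if l' < k then dd (ψ 0 l') x W - dd (ψ t l') x W else
            -(dd (ψ t l') x W - dd (ψ n l') x W)) := by
        unfold frm
        split_ifs <;> ring
      rw [e2]
      refine (abs_add_le _ _).trans ((add_le_add (hfr l' (by omega) t ht1 htn) hsum).trans ?_)
      have h6 : E t / 2 ^ g t l' + 2 ^ (u + P + P) * (E t / 2 ^ g t l') =
          (1 + 2 ^ (u + P + P)) * (E t / 2 ^ g t l') := by ring
      rw [h6]
      refine mul_le_mul_of_nonneg_right ?_ hT0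
      have h7 : (1 : ℝ) ≤ 2 ^ (u + P + P) := one_le_pow₀ (by norm_num)
      calc (1 : ℝ) + 2 ^ (u + P + P) ≤ 2 ^ (u + P + P + 1) := by
            rw [pow_succ]
            linarith
        _ ≤ _ := pow_le_pow_right₀ (by norm_num) (by
            rw [hu, hA]
            nlinarith [Nat.zero_le p, Nat.zero_le P, Nat.zero_le r, Nat.zero_le C₁,
              Nat.zero_le (C₁ * P), Nat.zero_le (r * (P + p)), Nat.zero_le (l' * (P + p + 1))])
  intro t ht1 htn l' hl'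
  refine (key l le_rfl t ht1 htn l' hl').trans (mul_le_mul_of_nonneg_right
    (pow_le_pow_right₀ (by norm_num) ?_) (div_nonneg (hE t) (by positivity)))
  exact Nat.mul_le_mul_right _ (Nat.mul_le_mul_left _ (by omega))

end Pool.GF64
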