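import Pool.Agent.H64.GF.One

/-!
# The relative gradient over the frame, at two points

`fol_mv`: the change of the natural components of the difference of the charts of the target between
two points of one set of charts, and the expansion of the values.
-/

set_option autoImplicit false

namespace Pool.GF64

open Finset Real MvPolynomial
open Pool.Agent.H49.Ent Pool.Agent.H32.Dense Pool.STK Pool.KA Pool.KSAT Pool.K2S Pool.PB Pool.S6C
open Pool.GEN Pool.CHT Pool.CHX Pool.ISO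
open Pool.D2R

variable {m : ℕ}

/-- **The relative gradient over the frame, at two points.** -/
theorem fol_mv (r D : ℕ) : ∃ C : ℕ, 1 ≤ C ∧ ∀ {m : ℕ} {c : ℕ → Fin m} {k n P : ℕ}
    {ψ Q : ℕ → ℕ → MvPolynomial (Option (Fin m)) ℝ} {g : ℕ → ℕ → ℕ} {a : ℕ → ℕ}
    {κ : ℕ → ℕ → ℝ} {t₀ : ℝ} (_ : FolD c r k D n P ψ Q g a κ t₀) {σ β e : ℕ → ℝ}
    (_ : FolN g k r n P σ β) {x y : Option (Fin m) → ℝ} {q X : ℕ}, 1 ≤ n → x none = t₀ →
    (∀ t, 1 ≤ t → t ≤ n → ∀ l < r,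
      |x (some (c l)) - eval x (ψ t l)| ≤ 2 ^ P / 2 ^ g t l) → y none = x none →
    (∀ l < k, l < r → |(y (some (c l)) - eval y (ψ 0 l)) - (x (some (c l)) - eval x (ψ 0 l))| ≤
      2 ^ 2 / 2 ^ (g 1 l + q)) →
    (∀ l, k ≤ l → l < r → |(y (some (c l)) - eval y (ψ n l)) -
      (x (some (c l)) - eval x (ψ n l))| ≤ 2 ^ (P + 1) / 2 ^ g n l) →
    σ n ≤ q → (X : ℝ) ≤ β n - σ n + P → Btw n σ β e →
    (∀ t, 1 ≤ t → t ≤ n → 2 * σ t - q ≤ e t) → (∀ t, 1 ≤ t → t ≤ n → e t + X ≤ β t + P) →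
    (∀ j < k, j < r → |ncp c r (frm ψ k n) (ψ n r - ψ 0 r) y j -
      ncp c r (frm ψ k n) (ψ n r - ψ 0 r) x j| ≤
        2 ^ (C * (P + 1)) * (2 ^ g 1 j / 2 ^ (g 1 r + X))) ∧
    ((q : ℝ) + X ≤ β n + P →
      |(eval y (ψ n r - ψ 0 r) - eval x (ψ n r - ψ 0 r)) - ∑ j ∈ range k,
        ncp c r (frm ψ k n) (ψ n r - ψ 0 r) x j * ((y (some (c j)) - eval y (ψ 0 j)) -
          (x (some (c j)) - eval x (ψ 0 j)))| ≤ 2 ^ (C * (P + 1)) / 2 ^ (g 1 r + q + X)) := by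
  classical
  obtain ⟨C₀, hC₀, hpth⟩ := pth_pos r D
  obtain ⟨C₁, hC₁, htg⟩ := fst_tg r D
  obtain ⟨C₂, hC₂, hst⟩ := snd_tg r D
  obtain ⟨C, hC⟩ : ∃ C : ℕ, C = (C₁ + C₂) * (8 * C₀ + 4) + 12 := ⟨_, rfl⟩
  refine ⟨C, by omega, ?_⟩
  intro m c k n P ψ Q g a κ t₀ H σ β e N x y q X hn hx0 hx hy0 hyl hyf hσq hX hbe he1 he2
  have hcr : Set.InjOn c (Set.Iio r) := H.inj.mono fun y hy => by
    rw [Set.mem_Iio] at hy ⊢
    omega
  obtain ⟨fr, hfr⟩ : ∃ fr, fr = frm ψ k n := ⟨_, rfl⟩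
  rw [← hfr]
  have hdep : ∀ l, DepC c l (fr l) := by rw [hfr]; exact frm_dep H n
  have hP0 : (0 : ℝ) ≤ P := Nat.cast_nonneg P
  -- the heights
  have hex : ∀ z : Option (Fin m) → ℝ, ∃ e : Option (Fin m) → ℝ, e none = 0 ∧ ∀ j < r,
      e (some (c j)) = z (some (c j)) - eval z (fr j) := by
    intro z
    obtain ⟨e₀, h0, he₀⟩ := vec_adapt (c := c) (i := r) hcr (G := fun _ => 0)
      (fun l b b' _ _ => by simp) x 0 (fun j => z (some (c j)) - eval z (fr j)) r le_rfl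
    refine ⟨e₀, h0, fun j hj => ?_⟩
    rw [← he₀ j hj]
    unfold dd
    simp
  obtain ⟨e₀, he0n, he₀⟩ := hex x
  obtain ⟨e₁, he1n, he₁⟩ := hex y
  have hfx : fpt c fr 0 r x e₀ = x := by
    funext o
    by_cases ho : ∃ l < r, o = some (c l)
    · obtain ⟨l, hl, rfl⟩ := ho
      exact fpt_inv hcr hdep rfl (fun _ _ h => absurd h (Nat.not_lt_zero _))
        (fun l hl _ => he₀ l hl) l hl
    · exact fpt_other r e₀ fun l hl h => ho ⟨l, hl, h⟩
  have hfyn : fpt c fr 0 r x e₁ none = y none := by rw [fpt_none, hy0]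
  have hfy : ∀ l < r, fpt c fr 0 r x e₁ (some (c l)) = y (some (c l)) :=
    fpt_inv hcr hdep hy0 (fun _ _ h => absurd h (Nat.not_lt_zero _)) fun l hl _ => he₁ l hl
  obtain ⟨η, hη⟩ : ∃ η : Option (Fin m) → ℝ, η = fun o => e₁ o - e₀ o := ⟨_, rfl⟩
  have hη1 : (fun o => e₀ o + 1 * η o) = e₁ := by
    rw [hη]
    funext o
    ring
  have hηl : ∀ l < r, η (some (c l)) = (y (some (c l)) - eval y (fr l)) -
      (x (some (c l)) - eval x (fr l)) := fun l hl => by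
    rw [hη]
    show e₁ (some (c l)) - e₀ (some (c l)) = _
    rw [he₁ l hl, he₀ l hl]
  have hη0 : η none = 0 := by
    rw [hη]
    show e₁ none - e₀ none = 0
    rw [he1n, he0n, sub_self]
  -- the size of the displacement
  obtain ⟨b₂, hb₂⟩ : ∃ b₂ : ℕ → ℝ, b₂ = fun t => (2 * (P : ℝ) + 2 - β n) + β t := ⟨_, rfl⟩
  obtain ⟨b₁, hb₁⟩ : ∃ b₁ : ℕ → ℝ, b₁ = fun t => (2 * (P : ℝ) + 2 - q) + σ t := ⟨_, rfl⟩
  have hbb₂ : Btw n σ β b₂ := by rw [hb₂]; exact N.btβ _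
  have hbb₁ : Btw n σ β b₁ := by rw [hb₁]; exact N.btσ _
  obtain ⟨E', hE'⟩ : ∃ E' : ℕ → ℝ, E' = fun t => (2 : ℝ) ^ b₁ t + (2 : ℝ) ^ b₂ t := ⟨_, rfl⟩
  have hE'0 : ∀ t, 0 ≤ E' t := fun t => by
    rw [hE']
    exact add_nonneg (rp_pos _).le (rp_pos _).le
  have hLoE' : Lo g k n P E' := by rw [hE']; exact (N.Lo hbb₁).add (N.Lo hbb₂)
  have hHiE' : Hi g k 0 r n P E' := by rw [hE']; exact (N.Hi hbb₁ 0).add (N.Hi hbb₂ 0)
  have hfol : ∀ l < r, k ≤ l → ∀ t, 1 ≤ t → t ≤ n →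
      |η (some (c l))| ≤ (2 : ℝ) ^ b₂ t / 2 ^ g t l := by
    intro l hl hk t h1 h2
    have e1 : fr l = ψ n l := by
      rw [hfr]
      unfold frm
      rw [if_neg (by omega)]
    rw [hηl l hl, e1]
    refine (hyf l hk hl).trans ?_
    rw [← Real.rpow_natCast 2 (P + 1), rp_div, rp_div, hb₂]
    refine rp_le ?_
    have a1 := N.hi t n h1 h2 le_rfl l hk hl.le
    show ((P + 1 : ℕ) : ℝ) - g n l ≤ (2 * (P : ℝ) + 2 - β n) + β t - g t l
    push_cast
    linarith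
  have hmov : ∀ l < r, l < k → ∀ t, 1 ≤ t → t ≤ n →
      |η (some (c l))| ≤ (2 : ℝ) ^ b₁ t / 2 ^ g t l := by
    intro l hl hk t h1 h2
    have e1 : fr l = ψ 0 l := by
      rw [hfr]
      unfold frm
      rw [if_pos hk]
    rw [hηl l hl, e1]
    refine (hyl l hk hl).trans ?_
    rw [← Real.rpow_natCast 2 2, rp_div, rp_div, hb₁]
    refine rp_le ?_
    have a1 := N.lo 1 t le_rfl h1 h2 l hk
    rw [N.σ1] at a1
    show ((2 : ℕ) : ℝ) - ((g 1 l + q : ℕ) : ℝ) ≤ (2 * (P : ℝ) + 2 - q) + σ t - g t l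
    push_cast
    linarith
  have hηE : ∀ l < r, ∀ t, 1 ≤ t → t ≤ n → |η (some (c l))| ≤ E' t / 2 ^ g t l := by
    intro l hl t h1 h2
    rw [hE']
    show _ ≤ ((2 : ℝ) ^ b₁ t + (2 : ℝ) ^ b₂ t) / 2 ^ g t l
    rw [add_div]
    rcases Nat.lt_or_ge l k with h | h
    · exact (hmov l hl h t h1 h2).trans (le_add_of_nonneg_right
        (div_nonneg (rp_pos _).le (by positivity)))
    · exact (hfol l hl h t h1 h2).trans (le_add_of_nonneg_left
        (div_nonneg (rp_pos _).le (by positivity)))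
  have hσt : ∀ t, 1 ≤ t → t ≤ n → σ t ≤ σ n := fun t h1 h2 => N.σm t n h1 h2 le_rfl
  have hβt : ∀ t, 1 ≤ t → t ≤ n → β t ≤ β n := fun t h1 h2 => N.βm h1 h2 le_rfl
  have hE'p : ∀ t, 1 ≤ t → t ≤ n → E' t ≤ 2 ^ (2 * P + 3) := by
    intro t h1 h2
    have f1 : (2 : ℝ) ^ b₁ t ≤ 2 ^ (2 * P + 2) := by
      rw [← Real.rpow_natCast 2 (2 * P + 2), hb₁]
      refine rp_le ?_
      have := hσt t h1 h2
      show (2 * (P : ℝ) + 2 - q) + σ t ≤ _
      push_cast
      linarith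
    have f2 : (2 : ℝ) ^ b₂ t ≤ 2 ^ (2 * P + 2) := by
      rw [← Real.rpow_natCast 2 (2 * P + 2), hb₂]
      refine rp_le ?_
      have := hβt t h1 h2
      show (2 * (P : ℝ) + 2 - β n) + β t ≤ _
      push_cast
      linarith
    rw [hE', show 2 * P + 3 = 2 * P + 2 + 1 by ring, pow_succ]
    show (2 : ℝ) ^ b₁ t + (2 : ℝ) ^ b₂ t ≤ _
    linarith
  -- the positions
  obtain ⟨z, hz⟩ : ∃ z : ℝ → Option (Fin m) → ℝ,
    z = fun u => fpt c fr 0 r x (fun o => e₀ o + u * η o) := ⟨_, rfl⟩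
  obtain ⟨p, hp⟩ : ∃ p : ℕ, p = C₀ * (P + (2 * P + 3) + 1) := ⟨_, rfl⟩
  have hzp : ∀ u ∈ Set.Icc (0 : ℝ) 1, ∀ t, 1 ≤ t → t ≤ n → ∀ l < r,
      |z u (some (c l)) - eval (z u) (ψ t l)| ≤ 2 ^ p / 2 ^ g t l := by
    intro u hu t h1 h2 l hl
    rw [hz, hp, hfr]
    exact hpth H (x := x) (e₀ := e₀) (η := η) (p₀ := 2 * P + 3) (E := E') hx0
      (fun t h1 h2 l hl => (hx t h1 h2 l hl).trans (div_le_div_of_nonneg_right
        (pow_le_pow_right₀ (by norm_num) (by omega)) (by positivity)))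
      (by rw [← hfr]; exact hfx) hE'0 hE'p hηE hLoE' hHiE' u hu t h1 h2 l hl
  have hz0 : ∀ u, z u none = t₀ := fun u => by
    rw [hz]
    show fpt c fr 0 r x _ none = t₀
    rw [fpt_none, hx0]
  -- the polynomial on the fibre
  obtain ⟨F, hF⟩ : ∃ F : MvPolynomial (Option (Fin m)) ℝ,
    F = bind₁ (fib c fr 0 x r) (ψ n r - ψ 0 r) := ⟨_, rfl⟩
  have hQd : DepC c r (ψ n r - ψ 0 r) := dep_sub (H.pψ _ _) (H.pψ _ _)
  have hFx : eval e₀ F = eval x (ψ n r - ψ 0 r) := by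
    rw [hF, ev_bind]
    show eval (fpt c fr 0 r x e₀) _ = _
    rw [hfx]
  have hFy : eval e₁ F = eval y (ψ n r - ψ 0 r) := by
    rw [hF, ev_bind]
    exact hQd _ _ hfyn hfy
  -- the second derivative
  have hfc : ∀ (u : ℝ) (V : Option (Fin m) → ℝ), ∀ l < r,
      fdv c fr 0 r x (fun o => e₀ o + u * η o) V (some (c l)) -
        dd (frm ψ k n l) (z u) (fdv c fr 0 r x (fun o => e₀ o + u * η o) V) =
        V (some (c l)) := by
    intro u V l hl
    rw [← hfr, hz, fdv_ge hcr hdep _ V hl (Nat.zero_le l), add_sub_cancel_left]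
  have hsec : ∀ (V : Option (Fin m) → ℝ) (b : ℕ → ℝ) (B : ℕ → ℝ) (T : ℝ),
      Lo g k n P (fun t => (2 : ℝ) ^ b t) → Hi g k 0 r n P (fun t => (2 : ℝ) ^ b t) →
      (∀ l < r, ∀ t, 1 ≤ t → t ≤ n → |V (some (c l))| ≤ (2 : ℝ) ^ b t / 2 ^ g t l) →
      (∀ t, 0 ≤ B t) → (∀ t, 1 ≤ t → t ≤ n → (2 : ℝ) ^ b t * E' t ≤ B t) →
      Lo g k n P B → Hi g k 0 r n P B → 0 ≤ T →
      (∀ t, 0 < t → t ≤ n → B t / 2 ^ g t r ≤ 2 ^ P * T) → ∀ u ∈ Set.Icc (0 : ℝ) 1,
      |hs F (fun o => e₀ o + u * η o) V η| ≤ 2 ^ (C₂ * (P + p + 1)) * T := by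
    intro V b B T hLb hHb hV hB0 hB hLB hHB hT0 hT u hu
    have h1 := fib_hs (x := x) hcr hdep (fun o => e₀ o + u * η o) V η
    have h2 := hst H (x := z u) (V := fdv c fr 0 r x (fun o => e₀ o + u * η o) V)
      (W := fdv c fr 0 r x (fun o => e₀ o + u * η o) η)
      (Z := fun o => hs (fib c fr 0 x r o) (fun o => e₀ o + u * η o) V η) (p := p)
      (E := fun t => (2 : ℝ) ^ b t) (E' := E') (B := B) (T := T) (hz0 u) (hzp u hu)
      (fdv_none _ _ _) (fdv_none _ _ _) h1.1 (fun t => (rp_pos _).le) hE'0 hB0 hB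
      (fun l hl t g1 g2 => by rw [hfc u V l hl]; exact hV l hl t g1 g2)
      (fun l hl t g1 g2 => by rw [hfc u η l hl]; exact hηE l hl t g1 g2)
      (fun l hl => by
        have h3 := h1.2 l hl
        rw [← hfr, hz]
        exact h3) hLb hHb hLoE' hHiE' hLB hHB hT0 hT
    rw [hF, hs_bind]
    rw [abs_sub_comm] at h2
    refine le_trans (le_of_eq ?_) h2
    congr 1
    rw [hz]
    show hs (ψ n r - ψ 0 r) (fpt c fr 0 r x fun o => e₀ o + u * η o)
      (fdv c fr 0 r x (fun o => e₀ o + u * η o) V)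
      (fdv c fr 0 r x (fun o => e₀ o + u * η o) η) + dd (ψ n r - ψ 0 r)
      (fpt c fr 0 r x fun o => e₀ o + u * η o) _ = _
    rw [hs_sub, dd_sub]
    ring
  have hexp : C₂ * (P + p + 1) ≤ C₂ * (8 * C₀ + 4) * (P + 1) := by
    rw [mul_assoc]
    refine Nat.mul_le_mul_left _ ?_
    rw [hp]
    nlinarith [Nat.zero_le (C₀ * P), Nat.zero_le P]
  have hexp1 : C₁ * (P + P + 1) ≤ C₁ * (8 * C₀ + 4) * (P + 1) := by
    rw [mul_assoc]
    refine Nat.mul_le_mul_left _ ?_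
    nlinarith [Nat.zero_le (C₀ * P), Nat.zero_le P]
  have hCe : C * (P + 1) = C₁ * (8 * C₀ + 4) * (P + 1) + C₂ * (8 * C₀ + 4) * (P + 1) +
      12 * (P + 1) := by
    rw [hC]
    ring
  have hkr := H.kr
  constructor
  · -- the gradient at two points
    intro j hj hjr
    obtain ⟨V, hV0, hV⟩ : ∃ V : Option (Fin m) → ℝ, V none = 0 ∧
        ∀ l < r, V (some (c l)) = if l = j then 1 else 0 := by
      obtain ⟨V, hV0, hV⟩ := vec_adapt (c := c) (i := r) hcr (G := fun _ => 0)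
        (fun l b b' _ _ => by simp) x 0 (fun l => if l = j then 1 else 0) r le_rfl
      refine ⟨V, hV0, fun l hl => ?_⟩
      rw [← hV l hl]
      unfold dd
      simp
    have hnx : dd F e₀ V = ncp c r fr (ψ n r - ψ 0 r) x j := by
      have h1 := fib_ncp (x := x) hcr hdep hQd e₀ (Nat.zero_le j) hV
      rw [hfx] at h1
      rw [hF]
      exact h1
    have hny : dd F e₁ V = ncp c r fr (ψ n r - ψ 0 r) y j := by
      have h1 := fib_ncp (x := x) hcr hdep hQd e₁ (Nat.zero_le j) hV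
      rw [hF, ← ncp_congr hcr hdep hQd hfyn hfy j]
      exact h1
    rw [← hnx, ← hny]
    obtain ⟨e₂, he₂⟩ : ∃ e₂ : ℕ → ℝ, e₂ = fun t => (3 * (P : ℝ) + 2 + g 1 j) + e t := ⟨_, rfl⟩
    obtain ⟨e₃, he₃⟩ : ∃ e₃ : ℕ → ℝ,
      e₃ = fun t => (3 * (P : ℝ) + 2 + g 1 j + σ n - β n) + β t := ⟨_, rfl⟩
    have hb2' : Btw n σ β e₂ := by rw [he₂]; exact hbe.shift _
    have hb3' : Btw n σ β e₃ := by rw [he₃]; exact N.btβ _
    have h1 := mv_two F e₀ η V (M := 2 ^ (C₂ * (P + p + 1)) *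
      (2 ^ (4 * P + 3) * (2 ^ g 1 j / 2 ^ (g 1 r + X)))) (fun u hu => by
        rw [dd_dP]
        refine hsec V (fun t => ((P : ℝ) + g 1 j) + σ t)
          (fun t => (2 : ℝ) ^ e₂ t + (2 : ℝ) ^ e₃ t) _ (N.Lo (N.btσ _)) (N.Hi (N.btσ _) 0)
          (fun l hl t g1 g2 => ?_) (fun t => add_nonneg (rp_pos _).le (rp_pos _).le)
          (fun t g1 g2 => ?_) ((N.Lo hb2').add (N.Lo hb3')) ((N.Hi hb2' 0).add (N.Hi hb3' 0))
          (by positivity) (fun t g1 g2 => ?_) u hu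
        · rw [hV l hl]
          split_ifs with h
          · subst h
            rw [abs_one]
            refine rp_one ?_
            have := N.lo 1 t le_rfl g1 g2 l hj
            rw [N.σ1] at this
            linarith
          · rw [abs_zero]
            exact div_nonneg (rp_pos _).le (by positivity)
        · rw [hE']
          show (2 : ℝ) ^ ((P : ℝ) + g 1 j + σ t) * ((2 : ℝ) ^ b₁ t + (2 : ℝ) ^ b₂ t) ≤
            (2 : ℝ) ^ e₂ t + (2 : ℝ) ^ e₃ t
          rw [mul_add, ← Real.rpow_add two_pos, ← Real.rpow_add two_pos]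
          refine add_le_add (rp_le ?_) (rp_le ?_)
          · rw [hb₁, he₂]
            have := he1 t g1 g2
            show (P : ℝ) + g 1 j + σ t + ((2 * (P : ℝ) + 2 - q) + σ t) ≤
              (3 * (P : ℝ) + 2 + g 1 j) + e t
            linarith
          · rw [hb₂, he₃]
            have := hσt t g1 g2
            show (P : ℝ) + g 1 j + σ t + ((2 * (P : ℝ) + 2 - β n) + β t) ≤
              (3 * (P : ℝ) + 2 + g 1 j + σ n - β n) + β t
            linarith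
        · have a1 := N.hi 1 t le_rfl g1 g2 r hkr le_rfl
          rw [N.β1] at a1
          have f1 : (2 : ℝ) ^ e₂ t / 2 ^ g t r ≤
              2 ^ P * (2 ^ (4 * P + 2) * (2 ^ g 1 j / 2 ^ (g 1 r + X))) := by
            refine rp_tgt ?_
            rw [he₂]
            have a2 := he2 t g1 g2
            show (3 * (P : ℝ) + 2 + g 1 j) + e t - g t r ≤ _
            push_cast
            linarith
          have f2 : (2 : ℝ) ^ e₃ t / 2 ^ g t r ≤
              2 ^ P * (2 ^ (4 * P + 2) * (2 ^ g 1 j / 2 ^ (g 1 r + X))) := by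
            refine rp_tgt ?_
            rw [he₃]
            show (3 * (P : ℝ) + 2 + g 1 j + σ n - β n) + β t - g t r ≤ _
            push_cast
            linarith
          show ((2 : ℝ) ^ e₂ t + (2 : ℝ) ^ e₃ t) / 2 ^ g t r ≤ _
          rw [add_div]
          refine (add_le_add f1 f2).trans (le_of_eq ?_)
          rw [show 4 * P + 3 = 4 * P + 2 + 1 by ring, pow_succ _ (4 * P + 2)]
          ring) 1 ⟨zero_le_one, le_rfl⟩
    rw [hη1] at h1
    refine h1.trans ?_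
    rw [← mul_assoc, ← pow_add]
    refine mul_le_mul_of_nonneg_right (pow_le_pow_right₀ (by norm_num) ?_) (by positivity)
    rw [hCe]
    omega
  · -- the values
    intro hqX
    have hUV : (0 : ℝ) ≤ (2 : ℝ) ^ 0 / 2 ^ (g 1 r + q + X) := by positivity
    -- the second order
    obtain ⟨e₂, he₂⟩ : ∃ e₂ : ℕ → ℝ, e₂ = fun t => (4 * (P : ℝ) + 5 - q) + e t := ⟨_, rfl⟩
    obtain ⟨e₃, he₃⟩ : ∃ e₃ : ℕ → ℝ, e₃ = fun t => (4 * (P : ℝ) + 5 - β n) + β t := ⟨_, rfl⟩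
    have hb2' : Btw n σ β e₂ := by rw [he₂]; exact hbe.shift _
    have hb3' : Btw n σ β e₃ := by rw [he₃]; exact N.btβ _
    have hBt : ∀ t, 0 < t → t ≤ n → ((2 : ℝ) ^ e₂ t + (2 : ℝ) ^ e₃ t) / 2 ^ g t r ≤
        2 ^ P * (2 ^ (5 * P + 6) * (2 ^ 0 / 2 ^ (g 1 r + q + X))) := by
      intro t g1 g2
      have a1 := N.hi 1 t le_rfl g1 g2 r hkr le_rfl
      rw [N.β1] at a1
      have f1 : (2 : ℝ) ^ e₂ t / 2 ^ g t r ≤
          2 ^ P * (2 ^ (5 * P + 5) * (2 ^ 0 / 2 ^ (g 1 r + q + X))) := by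
        refine rp_tgt ?_
        rw [he₂]
        have a2 := he2 t g1 g2
        show (4 * (P : ℝ) + 5 - q) + e t - g t r ≤ _
        push_cast
        linarith
      have f2 : (2 : ℝ) ^ e₃ t / 2 ^ g t r ≤
          2 ^ P * (2 ^ (5 * P + 5) * (2 ^ 0 / 2 ^ (g 1 r + q + X))) := by
        refine rp_tgt ?_
        rw [he₃]
        show (4 * (P : ℝ) + 5 - β n) + β t - g t r ≤ _
        push_cast
        linarith
      rw [add_div]
      refine (add_le_add f1 f2).trans (le_of_eq ?_)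
      rw [show 5 * P + 6 = 5 * P + 5 + 1 by ring, pow_succ _ (5 * P + 5)]
      ring
    -- the displacement as a sum of two exponentials: each half
    have hsec2 : ∀ u ∈ Set.Icc (0 : ℝ) 1, |hs F (fun o => e₀ o + u * η o) η η| ≤
        2 ^ (C₂ * (P + p + 1)) * (2 ^ (5 * P + 6) * (2 ^ 0 / 2 ^ (g 1 r + q + X))) := by
      intro u hu
      have h1 := fib_hs (x := x) hcr hdep (fun o => e₀ o + u * η o) η η
      have h2 := hst H (x := z u) (V := fdv c fr 0 r x (fun o => e₀ o + u * η o) η)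
        (W := fdv c fr 0 r x (fun o => e₀ o + u * η o) η)
        (Z := fun o => hs (fib c fr 0 x r o) (fun o => e₀ o + u * η o) η η) (p := p)
        (E := E') (E' := E') (B := fun t => (2 : ℝ) ^ e₂ t + (2 : ℝ) ^ e₃ t)
        (T := 2 ^ (5 * P + 6) * (2 ^ 0 / 2 ^ (g 1 r + q + X))) (hz0 u) (hzp u hu)
        (fdv_none _ _ _) (fdv_none _ _ _) h1.1 hE'0 hE'0
        (fun t => add_nonneg (rp_pos _).le (rp_pos _).le)
        (fun t g1 g2 => by
          rw [hE']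
          show ((2 : ℝ) ^ b₁ t + (2 : ℝ) ^ b₂ t) * ((2 : ℝ) ^ b₁ t + (2 : ℝ) ^ b₂ t) ≤
            (2 : ℝ) ^ e₂ t + (2 : ℝ) ^ e₃ t
          have f1 : 2 * ((2 : ℝ) ^ b₁ t * (2 : ℝ) ^ b₁ t) ≤ (2 : ℝ) ^ e₂ t := by
            have h5 : (2 : ℝ) = (2 : ℝ) ^ (1 : ℝ) := (Real.rpow_one 2).symm
            have h6 : 2 * ((2 : ℝ) ^ b₁ t * (2 : ℝ) ^ b₁ t) = (2 : ℝ) ^ (1 + (b₁ t + b₁ t)) := by
              rw [Real.rpow_add two_pos, Real.rpow_add two_pos, Real.rpow_one]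
            rw [h6]
            refine rp_le ?_
            rw [hb₁, he₂]
            have := he1 t g1 g2
            show 1 + ((2 * (P : ℝ) + 2 - q) + σ t + ((2 * (P : ℝ) + 2 - q) + σ t)) ≤
              (4 * (P : ℝ) + 5 - q) + e t
            linarith
          have f2 : 2 * ((2 : ℝ) ^ b₂ t * (2 : ℝ) ^ b₂ t) ≤ (2 : ℝ) ^ e₃ t := by
            have h6 : 2 * ((2 : ℝ) ^ b₂ t * (2 : ℝ) ^ b₂ t) = (2 : ℝ) ^ (1 + (b₂ t + b₂ t)) := by
              rw [Real.rpow_add two_pos, Real.rpow_add two_pos, Real.rpow_one]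
            rw [h6]
            refine rp_le ?_
            rw [hb₂, he₃]
            have := hβt t g1 g2
            show 1 + ((2 * (P : ℝ) + 2 - β n) + β t + ((2 * (P : ℝ) + 2 - β n) + β t)) ≤
              (4 * (P : ℝ) + 5 - β n) + β t
            linarith
          nlinarith [sq_nonneg ((2 : ℝ) ^ b₁ t - (2 : ℝ) ^ b₂ t)])
        (fun l hl t g1 g2 => by rw [hfc u η l hl]; exact hηE l hl t g1 g2)
        (fun l hl t g1 g2 => by rw [hfc u η l hl]; exact hηE l hl t g1 g2)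
        (fun l hl => by
          have h3 := h1.2 l hl
          rw [← hfr, hz]
          exact h3) hLoE' hHiE' hLoE' hHiE' ((N.Lo hb2').add (N.Lo hb3'))
        ((N.Hi hb2' 0).add (N.Hi hb3' 0)) (by positivity) hBt
      rw [hF, hs_bind]
      rw [abs_sub_comm] at h2
      refine le_trans (le_of_eq ?_) h2
      congr 1
      rw [hz]
      show hs (ψ n r - ψ 0 r) (fpt c fr 0 r x fun o => e₀ o + u * η o)
        (fdv c fr 0 r x (fun o => e₀ o + u * η o) η)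
        (fdv c fr 0 r x (fun o => e₀ o + u * η o) η) + dd (ψ n r - ψ 0 r)
        (fpt c fr 0 r x fun o => e₀ o + u * η o) _ = _
      rw [hs_sub, dd_sub]
      ring
    have h1 := mv_seg (F - lnp F e₀) e₀ η (M := 2 ^ (C₂ * (P + p + 1)) *
      (2 ^ (5 * P + 6) * (2 ^ 0 / 2 ^ (g 1 r + q + X)))) (fun u hu => by
        rw [dd_sub, dd_lnp]
        exact mv_two F e₀ η η (fun u' hu' => by
          rw [dd_dP]
          exact hsec2 u' hu') u hu) 1 ⟨zero_le_one, le_rfl⟩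
    rw [hη1, map_sub, map_sub, eval_lnp, eval_lnp, hFx, hFy] at h1
    have h3 : dd F e₀ η = dd F e₀ e₁ - dd F e₀ e₀ := by
      rw [hη]
      exact dd_vsub F e₀ e₁ e₀
    -- the first order
    obtain ⟨ηf, hηf⟩ : ∃ ηf : Option (Fin m) → ℝ, ηf none = 0 ∧ ∀ l < r, ηf (some (c l)) =
        if l < k then 0 else η (some (c l)) := by
      obtain ⟨V, hV0, hV⟩ := vec_adapt (c := c) (i := r) hcr (G := fun _ => 0)
        (fun l b b' _ _ => by simp) x 0 (fun l => if l < k then 0 else η (some (c l))) r le_rfl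
      refine ⟨V, hV0, fun l hl => ?_⟩
      rw [← hV l hl]
      unfold dd
      simp
    have hdF : ∀ V : Option (Fin m) → ℝ, dd F e₀ V = ∑ j ∈ range r,
        ncp c r fr (ψ n r - ψ 0 r) x j * V (some (c j)) := by
      intro V
      rw [hF, dd_bind]
      show dd (ψ n r - ψ 0 r) (fpt c fr 0 r x e₀) (fdv c fr 0 r x e₀ V) = _
      rw [ncp_sum hcr hdep hQd (fdv_none r e₀ _), hfx]
      refine Finset.sum_congr rfl fun j hj => ?_
      rw [Finset.mem_range] at hj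
      rw [fdv_ge hcr hdep e₀ _ hj (Nat.zero_le j), hfx]
      ring
    have h4 : dd F e₀ η = ∑ j ∈ range k, ncp c r fr (ψ n r - ψ 0 r) x j *
        ((y (some (c j)) - eval y (ψ 0 j)) - (x (some (c j)) - eval x (ψ 0 j))) +
        dd F e₀ ηf := by
      rw [hdF, hdF]
      have s1 : range k ⊆ range r := Finset.range_subset_range.2 hkr
      have s2 : ∑ j ∈ range r, ncp c r fr (ψ n r - ψ 0 r) x j * ηf (some (c j)) =
          ∑ j ∈ range r, (if j < k then 0 else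
            ncp c r fr (ψ n r - ψ 0 r) x j * η (some (c j))) := by
        refine Finset.sum_congr rfl fun j hj => ?_
        rw [hηf.2 j (Finset.mem_range.1 hj)]
        split_ifs
        · rw [mul_zero]
        · rfl
      have s3 : ∑ j ∈ range k, ncp c r fr (ψ n r - ψ 0 r) x j *
          ((y (some (c j)) - eval y (ψ 0 j)) - (x (some (c j)) - eval x (ψ 0 j))) =
          ∑ j ∈ range r, (if j < k then
            ncp c r fr (ψ n r - ψ 0 r) x j * η (some (c j)) else 0) := by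
        rw [← Finset.sum_subset s1 (fun j _ hj' => by
          rw [Finset.mem_range] at hj'
          rw [if_neg hj'])]
        refine Finset.sum_congr rfl fun j hj => ?_
        have hj1 := Finset.mem_range.1 hj
        have e1 : fr j = ψ 0 j := by
          rw [hfr]
          unfold frm
          rw [if_pos hj1]
        rw [if_pos hj1, hηl j (by omega), e1]
      rw [s2, s3, ← Finset.sum_add_distrib]
      refine Finset.sum_congr rfl fun j _ => ?_
      split_ifs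
      · rw [add_zero]
      · rw [zero_add]
    have h5 : |dd F e₀ ηf| ≤ 2 ^ (C₁ * (P + P + 1)) *
        (2 ^ (3 * P + 2) * (2 ^ 0 / 2 ^ (g 1 r + q + X))) := by
      have e1 : dd F e₀ ηf = -(dd (ψ 0 r) x (fdv c fr 0 r x e₀ ηf) -
          dd (ψ n r) x (fdv c fr 0 r x e₀ ηf)) := by
        rw [hF, dd_bind]
        show dd (ψ n r - ψ 0 r) (fpt c fr 0 r x e₀) (fdv c fr 0 r x e₀ ηf) = _
        rw [hfx, dd_sub]
        ring
      rw [e1, abs_neg]
      refine (htg H (x := x) (W := fdv c fr 0 r x e₀ ηf) (p := P) (j₀ := 0) (l := r) (n₁ := 0)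
        (n₂ := n) (E := fun t => (2 : ℝ) ^ b₂ t)
        (T := 2 ^ (3 * P + 2) * (2 ^ 0 / 2 ^ (g 1 r + q + X))) le_rfl hx0 hx (fdv_none _ _ _)
        (fun l' hl' => absurd hl' (Nat.not_lt_zero _)) (fun t => (rp_pos _).le)
        (fun l hl t g1 g2 => ?_) (N.Lo hbb₂) (N.Hi hbb₂ 0) (Nat.zero_le n) le_rfl (by positivity)
        (fun t g1 g2 => ?_)).1
      · rw [← hfr]
        have e2 := fdv_ge (x := x) hcr hdep e₀ ηf hl (Nat.zero_le l)
        rw [hfx] at e2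
        rw [e2, add_sub_cancel_left, hηf.2 l hl]
        split_ifs with h
        · rw [abs_zero]
          exact div_nonneg (rp_pos _).le (by positivity)
        · exact hfol l hl (by omega) t g1 g2
      · refine rp_tgt ?_
        rw [hb₂]
        have a1 := N.hi 1 t le_rfl g1 g2 r hkr le_rfl
        rw [N.β1] at a1
        show (2 * (P : ℝ) + 2 - β n) + β t - g t r ≤ _
        push_cast
        linarith
    have e9 : (eval y (ψ n r - ψ 0 r) - eval x (ψ n r - ψ 0 r)) - ∑ j ∈ range k,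
        ncp c r fr (ψ n r - ψ 0 r) x j * ((y (some (c j)) - eval y (ψ 0 j)) -
          (x (some (c j)) - eval x (ψ 0 j))) =
        (eval y (ψ n r - ψ 0 r) - dd F e₀ e₁ - (eval x (ψ n r - ψ 0 r) - dd F e₀ e₀)) +
          dd F e₀ ηf := by
      have h6 : ∑ j ∈ range k, ncp c r fr (ψ n r - ψ 0 r) x j *
          ((y (some (c j)) - eval y (ψ 0 j)) - (x (some (c j)) - eval x (ψ 0 j))) =
          dd F e₀ η - dd F e₀ ηf := by
        rw [h4]
        ring
      rw [h6, h3]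
      ring
    rw [e9]
    refine (abs_add_le _ _).trans ((add_le_add h1 h5).trans ?_)
    rw [← mul_assoc, ← mul_assoc, ← pow_add, ← pow_add, ← add_mul, pow_zero, mul_one_div]
    refine div_le_div_of_nonneg_right ?_ (by positivity)
    have g1 : (2 : ℝ) ^ (C₂ * (P + p + 1) + (5 * P + 6)) ≤ 2 ^ (C₁ * (8 * C₀ + 4) * (P + 1) +
      C₂ * (8 * C₀ + 4) * (P + 1) + 6 * (P + 1)) := pow_le_pow_right₀ (by norm_num) (by omega)
    have g2 : (2 : ℝ) ^ (C₁ * (P + P + 1) + (3 * P + 2)) ≤ 2 ^ (C₁ * (8 * C₀ + 4) * (P + 1) +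
      C₂ * (8 * C₀ + 4) * (P + 1) + 6 * (P + 1)) := pow_le_pow_right₀ (by norm_num) (by omega)
    have g3 : (2 : ℝ) ^ (C₁ * (8 * C₀ + 4) * (P + 1) +
      C₂ * (8 * C₀ + 4) * (P + 1) + 6 * (P + 1) + 1) ≤ 2 ^ (C * (P + 1)) :=
      pow_le_pow_right₀ (by norm_num) (by rw [hCe]; omega)
    rw [pow_succ] at g3
    linarith

end Pool.GF64
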