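import Pool.Agent.H64.GF.Pth

/-!
# The relative gradient over the frame, at one point

`fol_one`: the natural components of the difference of the charts of the target in the frame, and
their change between two frames.
-/

set_option autoImplicit false

namespace Pool.GF64

open Finset Real MvPolynomial
open Pool.Agent.H49.Ent Pool.Agent.H32.Dense Pool.STK Pool.KA Pool.KSAT Pool.K2S Pool.PB Pool.S6C
open Pool.GEN Pool.CHT Pool.CHX Pool.ISO
open Pool.D2R

variable {m : ℕ}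

theorem rp_one {e : ℝ} {g : ℕ} (h : 0 ≤ e - g) : 1 ≤ (2 : ℝ) ^ e / 2 ^ g := by
  have h1 := rp_leaf' (e := e) (g := g) (A := 0) (by push_cast; exact h)
  rwa [pow_zero] at h1

theorem rp_tgt {e : ℝ} {g P a u v : ℕ} (h : e - g ≤ (P : ℝ) + a + u - v) :
    (2 : ℝ) ^ e / 2 ^ g ≤ 2 ^ P * (2 ^ a * (2 ^ u / 2 ^ v)) := by
  rw [← mul_assoc, ← pow_add]
  exact rp_leaf (by push_cast; linarith)

theorem dd_vsub (R : MvPolynomial (Option (Fin m)) ℝ) (x W W' : Option (Fin m) → ℝ) :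
    dd R x (fun o => W o - W' o) = dd R x W - dd R x W' := by
  unfold dd
  rw [← Finset.sum_sub_distrib]
  exact Finset.sum_congr rfl fun o _ => by ring

theorem dep_sub {c : ℕ → Fin m} {r : ℕ} {Q Q' : MvPolynomial (Option (Fin m)) ℝ}
    (hQ : DepC c r Q) (hQ' : DepC c r Q') : DepC c r (Q - Q') := fun b b' h1 h2 => by
  rw [map_sub, map_sub, hQ b b' h1 h2, hQ' b b' h1 h2]

theorem c_num (C A P : ℕ) : C * (P + P + 1) + A * P ≤ (2 * C + A) * (P + 1) := by
  nlinarith [Nat.zero_le P, Nat.zero_le C, Nat.zero_le A]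

/-- **The relative gradient over the frame.** -/
theorem fol_one (r D : ℕ) : ∃ C : ℕ, 1 ≤ C ∧ ∀ {m : ℕ} {c : ℕ → Fin m} {k n P : ℕ}
    {ψ Q : ℕ → ℕ → MvPolynomial (Option (Fin m)) ℝ} {g : ℕ → ℕ → ℕ} {a : ℕ → ℕ}
    {κ : ℕ → ℕ → ℝ} {t₀ : ℝ} (_ : FolD c r k D n P ψ Q g a κ t₀) {σ β : ℕ → ℝ}
    (_ : FolN g k r n P σ β) {x : Option (Fin m) → ℝ}, 1 ≤ n → x none = t₀ →
    (∀ t, 1 ≤ t → t ≤ n → ∀ l < r,
      |x (some (c l)) - eval x (ψ t l)| ≤ 2 ^ P / 2 ^ g t l) →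
    (∀ j < k, j < r → |ncp c r (frm ψ k n) (ψ n r - ψ 0 r) x j| ≤
      2 ^ (C * (P + 1)) * (2 ^ g 1 j / 2 ^ g 1 r)) ∧
    (∀ j, k ≤ j → j < r → (∀ t t', 1 ≤ t → t ≤ t' → t' ≤ n → ∀ l, j < l → l ≤ r →
        (g t' j : ℝ) - g t j ≤ (g t' l : ℝ) - g t l + P) →
      |ncp c r (frm ψ k n) (ψ n r - ψ 0 r) x j| ≤ 2 ^ (C * (P + 1)) * (2 ^ g 1 j / 2 ^ g 1 r)) ∧
    (∀ ks X : ℕ, 1 ≤ ks → ks ≤ n → (X : ℝ) ≤ β ks - σ ks + P → ∀ j < k, j < r →
      |ncp c r (frm ψ k n) (ψ n r - ψ 0 r) x j - ncp c r (frm ψ k ks) (ψ ks r - ψ 0 r) x j| ≤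
        2 ^ (C * (P + 1)) * (2 ^ g 1 j / 2 ^ (g 1 r + X))) := by
  obtain ⟨C₁, hC₁, htg⟩ := fst_tg r D
  obtain ⟨C₂, hC₂, hfb⟩ := fst_bd r D
  obtain ⟨C, hC⟩ : ∃ C : ℕ, C = 4 * C₁ + 2 * C₂ + 8 := ⟨_, rfl⟩
  refine ⟨C, by omega, ?_⟩
  intro m c k n P ψ Q g a κ t₀ H σ β N x hn hx0 hx
  have hcr : Set.InjOn c (Set.Iio r) := H.inj.mono fun y hy => by
    rw [Set.mem_Iio] at hy ⊢
    omega
  have hdep : ∀ l, DepC c l (frm ψ k n l) := frm_dep H n
  have hW := fun (n' j : ℕ) => vec_adapt hcr (frm_dep H n') x 0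
    (fun l => if l = j then 1 else 0) r le_rfl
  choose W hW0 hWl using hW
  have hQd : ∀ n', DepC c r (ψ n' r - ψ 0 r) := fun n' => dep_sub (H.pψ _ _) (H.pψ _ _)
  have hncp : ∀ n' j, ncp c r (frm ψ k n') (ψ n' r - ψ 0 r) x j =
      dd (ψ n' r) x (W n' j) - dd (ψ 0 r) x (W n' j) := fun n' j => by
    rw [ncp_eq (frm_dep H n') (hQd n') (hW0 n' j) (hWl n' j), dd_sub]
  have hno : ∀ j₀ : ℕ, ∀ V : Option (Fin m) → ℝ, j₀ = 0 → ∀ l' < j₀, V (some (c l')) = 0 :=
    fun j₀ V h l' hl' => absurd hl' (by omega)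
  -- the bound for the moved places
  obtain ⟨E, hE⟩ : ∃ E : ℕ → ℕ → ℝ, E = fun j t => (2 : ℝ) ^ (((P : ℝ) + g 1 j) + σ t) :=
    ⟨_, rfl⟩
  have hE0 : ∀ j t, 0 ≤ E j t := fun j t => by rw [hE]; exact (rp_pos _).le
  have hEc : ∀ j < k, ∀ l' < r, ∀ t, 1 ≤ t → t ≤ n →
      |W n j (some (c l')) - dd (frm ψ k n l') x (W n j)| ≤ E j t / 2 ^ g t l' := by
    intro j hj l' hl' t h1 h2
    rw [hWl n j l' hl']
    split_ifs with h
    · subst h
      rw [abs_one, hE]
      refine rp_one ?_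
      have := N.lo 1 t le_rfl h1 h2 l' hj
      rw [N.σ1] at this
      linarith
    · rw [abs_zero]
      exact div_nonneg (hE0 j t) (by positivity)
  have hbt : ∀ A : ℝ, Btw n σ β fun t => A + σ t := N.btσ
  have hLoE : ∀ j, Lo g k n P (E j) := fun j => by rw [hE]; exact N.Lo (hbt _)
  have hHiE : ∀ j, Hi g k 0 r n P (E j) := fun j => by rw [hE]; exact N.Hi (hbt _) 0
  refine ⟨fun j hj hjr => ?_, fun j hj hjr hsl => ?_, fun ks X hks1 hks hX j hj hjr => ?_⟩
  · rw [hncp, abs_sub_comm]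
    have h1 := (htg H (x := x) (W := W n j) (p := P) (j₀ := 0) (l := r) (n₁ := 0) (n₂ := n)
      (E := E j) (T := 2 ^ P * (2 ^ g 1 j / 2 ^ g 1 r)) le_rfl hx0 hx (hW0 n j)
      (hno 0 _ rfl) (hE0 j) (hEc j hj) (hLoE j) (hHiE j) (Nat.zero_le n) le_rfl (by positivity)
      (fun t h1 h2 => by
        rw [hE]
        refine rp_tgt ?_
        have a1 := N.hi 1 t le_rfl h1 h2 r H.kr le_rfl
        have a2 := N.σβ 1 t le_rfl h1 h2
        rw [N.β1] at a1 a2
        rw [N.σ1] at a2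
        linarith)).1
    refine h1.trans ?_
    rw [← mul_assoc, ← pow_add]
    refine mul_le_mul_of_nonneg_right (pow_le_pow_right₀ (by norm_num) ?_) (by positivity)
    have h2 := c_num C₁ 1 P
    rw [one_mul] at h2
    refine h2.trans (Nat.mul_le_mul_right _ ?_)
    omega
  · -- the followers
    rw [hncp, abs_sub_comm]
    have hWz : ∀ l' < j, W n j (some (c l')) = 0 := by
      intro l' hl'
      have h1 := adp_eq (r := j) (W := W n j) (V := 0) (x := x) hdep (hW0 n j) (fun l hl => by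
        rw [hWl n j l (by omega), if_neg (by omega)]
        have h2 : dd (frm ψ k n l) x 0 = 0 := by
          unfold dd
          simp
        rw [h2, Pi.zero_apply, sub_zero]) l' hl'
      rw [h1, Pi.zero_apply]
    have hlo : ∀ t t', 1 ≤ t → t ≤ t' → t' ≤ n → ∀ l < k,
        (g t' l : ℝ) - g t l ≤ (g t' j : ℝ) - g t j + (P + P) := by
      intro t t' h1 h2 h3 l hl
      have a1 := N.lo t t' h1 h2 h3 l hl
      have a2 := N.σβ t t' h1 h2 h3
      have a3 := N.hi t t' h1 h2 h3 j hj hjr.le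
      linarith
    have h1 := (htg (H.mono (show P ≤ P + P by omega)) (x := x) (W := W n j) (p := P) (j₀ := j)
      (l := r) (n₁ := 0) (n₂ := n) (E := fun t => (2 : ℝ) ^ (g t j : ℝ))
      (T := 2 ^ g 1 j / 2 ^ g 1 r) le_rfl hx0 hx (hW0 n j) hWz (fun t => (rp_pos _).le)
      (fun l' hl' t h1 h2 => by
        rw [hWl n j l' hl']
        split_ifs with h
        · subst h
          rw [abs_one]
          exact rp_one (by rw [sub_self])
        · rw [abs_zero]
          exact div_nonneg (rp_pos _).le (by positivity))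
      (fun l hl t' t h1 h2 h3 => by
        show (2 : ℝ) ^ (g t' j : ℝ) / 2 ^ g t' l ≤ 2 ^ (P + P) * ((2 : ℝ) ^ (g t j : ℝ) / 2 ^ g t l)
        rw [rp_div, rp_div, rp_mul]
        have a1 := hlo t' t h1 h2 h3 l hl
        refine rp_le ?_
        push_cast
        linarith)
      (fun l _ hjl hlr t t' h1 h2 h3 => by
        show (2 : ℝ) ^ (g t' j : ℝ) / 2 ^ g t' l ≤ 2 ^ (P + P) * ((2 : ℝ) ^ (g t j : ℝ) / 2 ^ g t l)
        rw [rp_div, rp_div, rp_mul]
        have hP : (0 : ℝ) ≤ P := Nat.cast_nonneg P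
        rcases hjl.eq_or_lt with h | h
        · subst h
          refine rp_le ?_
          push_cast
          linarith
        · have a1 := hsl t t' h1 h2 h3 l h hlr.le
          refine rp_le ?_
          push_cast
          linarith) (Nat.zero_le n) le_rfl (by positivity)
      (fun t h1 h2 => by
        have hP : (0 : ℝ) ≤ P := Nat.cast_nonneg P
        refine rp_leaf ?_
        have a1 := hsl 1 t le_rfl h1 h2 r hjr le_rfl
        push_cast
        linarith)).1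
    refine h1.trans (mul_le_mul_of_nonneg_right (pow_le_pow_right₀ (by norm_num) ?_)
      (by positivity))
    calc C₁ * (P + P + P + 1) ≤ C₁ * (3 * (P + 1)) := Nat.mul_le_mul_left _ (by omega)
      _ = (3 * C₁) * (P + 1) := by ring
      _ ≤ _ := Nat.mul_le_mul_right _ (by omega)
  · -- two frames
    obtain ⟨Δ, hΔ⟩ : ∃ Δ : Option (Fin m) → ℝ, Δ = fun o => W n j o - W ks j o := ⟨_, rfl⟩
    have hΔd : ∀ R : MvPolynomial (Option (Fin m)) ℝ, dd R x Δ =
        dd R x (W n j) - dd R x (W ks j) := fun R => by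
      rw [hΔ]
      exact dd_vsub R x _ _
    have hsplit : ncp c r (frm ψ k n) (ψ n r - ψ 0 r) x j -
        ncp c r (frm ψ k ks) (ψ ks r - ψ 0 r) x j =
        -(dd (ψ ks r) x (W n j) - dd (ψ n r) x (W n j)) -
        (dd (ψ 0 r) x Δ - dd (ψ ks r) x Δ) := by
      rw [hncp, hncp, hΔd, hΔd]
      ring
    have hσβm : ∀ t, ks ≤ t → t ≤ n → β ks - σ ks ≤ β t - σ t := fun t h1 h2 => by
      have := N.σβ ks t hks1 h1 h2
      linarith
    -- the tail
    have b1 := (htg H (x := x) (W := W n j) (p := P) (j₀ := 0) (l := r) (n₁ := ks) (n₂ := n)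
      (E := E j) (T := 2 ^ (2 * P) * (2 ^ g 1 j / 2 ^ (g 1 r + X))) le_rfl hx0 hx (hW0 n j)
      (hno 0 _ rfl) (hE0 j) (hEc j hj) (hLoE j) (hHiE j) hks le_rfl (by positivity)
      (fun t h1 h2 => by
        rw [hE]
        refine rp_tgt ?_
        have a1 := N.hi 1 t le_rfl (by omega) h2 r H.kr le_rfl
        have a2 := hσβm t h1.le h2
        rw [N.β1] at a1
        push_cast
        linarith)).1
    -- the change of the frame
    obtain ⟨w, hw⟩ : ∃ w : ℕ, w = C₂ * (P + P + 1) := ⟨_, rfl⟩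
    have b2 := hfb H (x := x) (W := W n j) (p := P) (j₀ := 0) (l := r) (E := E j) le_rfl hx0
      (fun t h1 h2 l' hl' => hx t h1 h2 l' (by omega)) (hW0 n j) (hno 0 _ rfl) (hE0 j)
      (hEc j hj) (hLoE j) (hHiE j) ks hks1 hks
    rw [← hw] at b2
    obtain ⟨eΔ, heΔ⟩ : ∃ eΔ : ℕ → ℝ, eΔ = fun t => ((w : ℝ) + P + g 1 j + σ ks - β ks) + β t :=
      ⟨_, rfl⟩
    have hΔc : ∀ l' < r, ∀ t, 1 ≤ t → t ≤ ks →
        |Δ (some (c l')) - dd (frm ψ k ks l') x Δ| ≤ (2 : ℝ) ^ (eΔ t + P) / 2 ^ g t l' := by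
      intro l' hl' t h1 h2
      have e1 : Δ (some (c l')) - dd (frm ψ k ks l') x Δ =
          (W n j (some (c l')) - dd (frm ψ k ks l') x (W n j)) -
          (W ks j (some (c l')) - dd (frm ψ k ks l') x (W ks j)) := by
        rw [hΔd, hΔ]
        ring
      rcases Nat.lt_or_ge l' k with hk | hk
      · have e2 : frm ψ k ks l' = frm ψ k n l' := by
          unfold frm
          rw [if_pos hk, if_pos hk]
        have e3 := hWl ks j l' hl'
        rw [e2] at e1 e3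
        rw [e2, e1, hWl n j l' hl', e3, sub_self, abs_zero]
        exact div_nonneg (rp_pos _).le (by positivity)
      · have e2 : frm ψ k ks l' = ψ ks l' := by
          unfold frm
          rw [if_neg (by omega)]
        have e3 := hWl ks j l' hl'
        rw [e2, if_neg (by omega)] at e3
        rw [e1, e2, e3, sub_zero]
        refine (b2 l' hl').trans ?_
        rw [hE]
        show 2 ^ w * ((2 : ℝ) ^ ((P : ℝ) + g 1 j + σ ks) / 2 ^ g ks l') ≤ _
        rw [rp_div, rp_div, rp_mul, heΔ]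
        refine rp_le ?_
        have a1 := N.hi t ks h1 h2 hks l' hk hl'.le
        show (w : ℝ) + ((P : ℝ) + g 1 j + σ ks - g ks l') ≤
          ((w : ℝ) + P + g 1 j + σ ks - β ks) + β t + P - g t l'
        linarith
    have N' := N.le hks
    have hbΔ : Btw ks σ β fun t => eΔ t + P := by
      intro t t' h1 h2 h3
      have := N'.btβ 0 t t' h1 h2 h3
      rw [heΔ]
      obtain ⟨a1, a2⟩ := this
      constructor
      · show σ t' - σ t ≤ ((w : ℝ) + P + g 1 j + σ ks - β ks) + β t' + P -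
          (((w : ℝ) + P + g 1 j + σ ks - β ks) + β t + P)
        linarith
      · show ((w : ℝ) + P + g 1 j + σ ks - β ks) + β t' + P -
          (((w : ℝ) + P + g 1 j + σ ks - β ks) + β t + P) ≤ β t' - β t
        linarith
    have b3 := (htg (H.le hks) (x := x) (W := Δ) (p := P) (j₀ := 0) (l := r) (n₁ := 0) (n₂ := ks)
      (E := fun t => (2 : ℝ) ^ (eΔ t + P)) (T := 2 ^ (w + 3 * P) * (2 ^ g 1 j / 2 ^ (g 1 r + X)))
      le_rfl hx0 (fun t h1 h2 => hx t h1 (h2.trans hks)) (by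
        rw [hΔ]
        show W n j none - W ks j none = 0
        rw [hW0, hW0, sub_zero]) (hno 0 _ rfl) (fun t => (rp_pos _).le) hΔc (N'.Lo hbΔ)
      (N'.Hi hbΔ 0) (Nat.zero_le ks) le_rfl (by positivity) (fun t h1 h2 => by
        refine rp_tgt ?_
        rw [heΔ]
        have a1 := N.hi 1 t le_rfl h1 (h2.trans hks) r H.kr le_rfl
        rw [N.β1] at a1
        show ((w : ℝ) + P + g 1 j + σ ks - β ks) + β t + P - g t r ≤ _
        push_cast
        linarith)).1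
    rw [hsplit]
    refine (abs_sub _ _).trans ?_
    rw [abs_neg]
    refine (add_le_add b1 b3).trans ?_
    rw [← mul_assoc, ← mul_assoc, ← pow_add, ← pow_add, ← add_mul]
    refine mul_le_mul_of_nonneg_right ?_ (by positivity)
    have h2 := c_num C₁ 3 P
    have h3 : C₁ * (P + P + 1) + (w + 3 * P) ≤ (2 * C₁ + 2 * C₂ + 3) * (P + 1) := by
      rw [hw]
      nlinarith [Nat.zero_le P, Nat.zero_le C₁, Nat.zero_le C₂]
    have h4 : C₁ * (P + P + 1) + 2 * P ≤ (2 * C₁ + 2 * C₂ + 3) * (P + 1) := by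
      nlinarith [Nat.zero_le P, Nat.zero_le C₁, Nat.zero_le C₂]
    have h5 : (2 : ℝ) ^ (C₁ * (P + P + 1) + 2 * P) ≤ 2 ^ ((2 * C₁ + 2 * C₂ + 3) * (P + 1)) :=
      pow_le_pow_right₀ (by norm_num) h4
    have h6 : (2 : ℝ) ^ (C₁ * (P + P + 1) + (w + 3 * P)) ≤
        2 ^ ((2 * C₁ + 2 * C₂ + 3) * (P + 1)) := pow_le_pow_right₀ (by norm_num) h3
    have h7 : (2 : ℝ) ^ ((2 * C₁ + 2 * C₂ + 3) * (P + 1) + 1) ≤ 2 ^ (C * (P + 1)) := by
      refine pow_le_pow_right₀ (by norm_num) ?_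
      rw [hC]
      nlinarith [Nat.zero_le P, Nat.zero_le C₁, Nat.zero_le C₂]
    rw [pow_succ] at h7
    linarith

end Pool.GF64
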