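import Pool.Agent.H64.GF.Sec

/-!
# The numbers of a chain, the chain rule, and the positions along a small box

`FolN`: the numbers of a chain of charts. `hs_bind`, `fib_hs`: the second derivative of the fibre.
`pth_pos`: the positions along a segment in the heights of the frame.
-/

set_option autoImplicit false

namespace Pool.GF64

open Finset Real MvPolynomial
open Pool.Agent.H49.Ent Pool.Agent.H32.Dense Pool.STK Pool.KA Pool.KSAT Pool.K2S Pool.PB Pool.S6C
open Pool.GEN Pool.CHT Pool.CHX Pool.ISO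
open Pool.D2R

variable {m : ℕ}

/-! ### Powers of two -/

theorem rp_div (e : ℝ) (g : ℕ) : (2 : ℝ) ^ e / 2 ^ g = (2 : ℝ) ^ (e - g) := by
  rw [Real.rpow_sub two_pos, Real.rpow_natCast]

theorem rp_mul (P : ℕ) (e : ℝ) : (2 : ℝ) ^ P * (2 : ℝ) ^ e = (2 : ℝ) ^ ((P : ℝ) + e) := by
  rw [Real.rpow_add two_pos, Real.rpow_natCast]

theorem rp_le {e e' : ℝ} (h : e ≤ e') : (2 : ℝ) ^ e ≤ (2 : ℝ) ^ e' :=
  Real.rpow_le_rpow_of_exponent_le one_le_two h

theorem rp_pos (e : ℝ) : (0 : ℝ) < (2 : ℝ) ^ e := Real.rpow_pos_of_pos two_pos e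

theorem rp_leaf {e : ℝ} {g A u v : ℕ} (h : e - g ≤ (A : ℝ) + u - v) :
    (2 : ℝ) ^ e / 2 ^ g ≤ 2 ^ A * (2 ^ u / 2 ^ v) := by
  have e1 : (2 : ℝ) ^ u / 2 ^ v = (2 : ℝ) ^ ((u : ℝ) - v) := by
    rw [← rp_div, Real.rpow_natCast]
  rw [rp_div, e1, rp_mul]
  exact rp_le (by linarith)

theorem rp_leaf' {e : ℝ} {g A : ℕ} (h : (A : ℝ) ≤ e - g) : (2 : ℝ) ^ A ≤ (2 : ℝ) ^ e / 2 ^ g := by
  rw [rp_div, ← Real.rpow_natCast]
  exact rp_le h

/-! ### The numbers -/

/-- **The numbers of a chain.** -/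
structure FolN (g : ℕ → ℕ → ℕ) (k r n P : ℕ) (σ β : ℕ → ℝ) : Prop where
  σ1 : σ 1 = 0
  β1 : β 1 = 0
  σm : ∀ t t', 1 ≤ t → t ≤ t' → t' ≤ n → σ t ≤ σ t'
  σβ : ∀ t t', 1 ≤ t → t ≤ t' → t' ≤ n → σ t' - σ t ≤ β t' - β t
  lo : ∀ t t', 1 ≤ t → t ≤ t' → t' ≤ n → ∀ l < k, (g t' l : ℝ) - g t l ≤ σ t' - σ t + P
  hi : ∀ t t', 1 ≤ t → t ≤ t' → t' ≤ n → ∀ l, k ≤ l → l ≤ r →
    β t' - β t ≤ (g t' l : ℝ) - g t l + P

/-- Between the two slopes. -/
def Btw (n : ℕ) (σ β e : ℕ → ℝ) : Prop := ∀ t t', 1 ≤ t → t ≤ t' → t' ≤ n →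
  σ t' - σ t ≤ e t' - e t ∧ e t' - e t ≤ β t' - β t

section num

variable {g : ℕ → ℕ → ℕ} {k r n P : ℕ} {σ β e : ℕ → ℝ}

theorem FolN.le (h : FolN g k r n P σ β) {n' : ℕ} (hn : n' ≤ n) : FolN g k r n' P σ β where
  σ1 := h.σ1
  β1 := h.β1
  σm := fun t t' h1 h2 h3 => h.σm t t' h1 h2 (h3.trans hn)
  σβ := fun t t' h1 h2 h3 => h.σβ t t' h1 h2 (h3.trans hn)
  lo := fun t t' h1 h2 h3 => h.lo t t' h1 h2 (h3.trans hn)
  hi := fun t t' h1 h2 h3 => h.hi t t' h1 h2 (h3.trans hn)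

theorem FolN.βm (h : FolN g k r n P σ β) {t t' : ℕ} (h1 : 1 ≤ t) (h2 : t ≤ t') (h3 : t' ≤ n) :
    β t ≤ β t' := by
  have a1 := h.σm t t' h1 h2 h3
  have a2 := h.σβ t t' h1 h2 h3
  linarith

theorem FolN.btσ (h : FolN g k r n P σ β) (A : ℝ) : Btw n σ β fun t => A + σ t :=
  fun t t' h1 h2 h3 => by
    have a2 := h.σβ t t' h1 h2 h3
    constructor <;> linarith

theorem FolN.btβ (h : FolN g k r n P σ β) (A : ℝ) : Btw n σ β fun t => A + β t :=
  fun t t' h1 h2 h3 => by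
    have a2 := h.σβ t t' h1 h2 h3
    constructor <;> linarith

theorem Btw.shift (h : Btw n σ β e) (A : ℝ) : Btw n σ β fun t => A + e t :=
  fun t t' h1 h2 h3 => by
    obtain ⟨a1, a2⟩ := h t t' h1 h2 h3
    constructor <;> linarith

theorem FolN.Lo (h : FolN g k r n P σ β) (he : Btw n σ β e) :
    Lo g k n P fun t => (2 : ℝ) ^ e t := by
  intro l hl t' t h1 h2 h3
  show (2 : ℝ) ^ e t' / 2 ^ g t' l ≤ 2 ^ P * ((2 : ℝ) ^ e t / 2 ^ g t l)
  rw [rp_div, rp_div, rp_mul]
  have a1 := (he t' t h1 h2 h3).1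
  have a2 := h.lo t' t h1 h2 h3 l hl
  exact rp_le (by linarith)

theorem FolN.Hi (h : FolN g k r n P σ β) (he : Btw n σ β e) (j₀ : ℕ) :
    Hi g k j₀ r n P fun t => (2 : ℝ) ^ e t := by
  intro l hl _ hlr t t' h1 h2 h3
  show (2 : ℝ) ^ e t' / 2 ^ g t' l ≤ 2 ^ P * ((2 : ℝ) ^ e t / 2 ^ g t l)
  rw [rp_div, rp_div, rp_mul]
  have a1 := (he t t' h1 h2 h3).2
  have a2 := h.hi t t' h1 h2 h3 l hl hlr.le
  exact rp_le (by linarith)

end num

theorem Lo.add {g : ℕ → ℕ → ℕ} {k n P : ℕ} {E E' : ℕ → ℝ} (h : Lo g k n P E)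
    (h' : Lo g k n P E') : Lo g k n P fun t => E t + E' t := by
  intro l hl t' t h1 h2 h3
  have a1 := h l hl t' t h1 h2 h3
  have a2 := h' l hl t' t h1 h2 h3
  rw [add_div, add_div, mul_add]
  exact add_le_add a1 a2

theorem Hi.add {g : ℕ → ℕ → ℕ} {k j₀ r n P : ℕ} {E E' : ℕ → ℝ} (h : Hi g k j₀ r n P E)
    (h' : Hi g k j₀ r n P E') : Hi g k j₀ r n P fun t => E t + E' t := by
  intro l hl hl0 hlr t t' h1 h2 h3
  have a1 := h l hl hl0 hlr t t' h1 h2 h3
  have a2 := h' l hl hl0 hlr t t' h1 h2 h3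
  rw [add_div, add_div, mul_add]
  exact add_le_add a1 a2

/-! ### The chain rule of the second derivative -/

theorem hs_mul (P Q : MvPolynomial (Option (Fin m)) ℝ) (x W V : Option (Fin m) → ℝ) :
    hs (P * Q) x W V = eval x P * hs Q x W V + eval x Q * hs P x W V +
      (dd P x W * dd Q x V + dd P x V * dd Q x W) := by
  have h1 : ∀ o, dd (pderiv o (P * Q)) x W * V o = eval x P * (dd (pderiv o Q) x W * V o) +
      eval x Q * (dd (pderiv o P) x W * V o) + (dd P x W * (eval x (pderiv o Q) * V o) +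
      dd Q x W * (eval x (pderiv o P) * V o)) := by
    intro o
    rw [pderiv_mul, dd_padd, dd_mul, dd_mul]
    ring
  unfold hs
  rw [Finset.sum_congr rfl fun o _ => h1 o, Finset.sum_add_distrib, Finset.sum_add_distrib,
    Finset.sum_add_distrib, ← Finset.mul_sum, ← Finset.mul_sum, ← Finset.mul_sum,
    ← Finset.mul_sum]
  have h2 : ∑ o, eval x (pderiv o Q) * V o = dd Q x V := rfl
  have h3 : ∑ o, eval x (pderiv o P) * V o = dd P x V := rfl
  rw [h2, h3]
  ring

theorem dd_X' (o : Option (Fin m)) (x W : Option (Fin m) → ℝ) :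
    dd (X o : MvPolynomial (Option (Fin m)) ℝ) x W = W o := by
  classical
  unfold dd
  rw [Finset.sum_eq_single o]
  · rw [pderiv_X_self, map_one, one_mul]
  · intro o' _ ho
    rw [pderiv_X_of_ne (Ne.symm ho), map_zero, zero_mul]
  · intro h
    exact absurd (Finset.mem_univ _) h

theorem hs_X' (o : Option (Fin m)) (x V W : Option (Fin m) → ℝ) :
    hs (X o : MvPolynomial (Option (Fin m)) ℝ) x V W = 0 := by
  classical
  unfold hs
  refine Finset.sum_eq_zero fun o' _ => ?_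
  by_cases h : o' = o
  · subst h
    rw [pderiv_X_self]
    have h1 : dd (1 : MvPolynomial (Option (Fin m)) ℝ) x V = 0 := by
      rw [← C_1, dd_C]
    rw [h1, zero_mul]
  · rw [pderiv_X_of_ne (Ne.symm h)]
    have h1 : dd (0 : MvPolynomial (Option (Fin m)) ℝ) x V = 0 := by
      rw [← C_0, dd_C]
    rw [h1, zero_mul]

/-- **The chain rule of the second derivative.** -/
theorem hs_bind (Φ : Option (Fin m) → MvPolynomial (Option (Fin m)) ℝ)
    (Q : MvPolynomial (Option (Fin m)) ℝ) (e V W : Option (Fin m) → ℝ) :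
    hs (bind₁ Φ Q) e V W = hs Q (fun o => eval e (Φ o)) (fun o => dd (Φ o) e V)
      (fun o => dd (Φ o) e W) + dd Q (fun o => eval e (Φ o)) (fun o => hs (Φ o) e V W) := by
  classical
  induction Q using MvPolynomial.induction_on with
  | C a => rw [bind₁_C_right, hs_C, hs_C, dd_C, zero_add]
  | add P Q h1 h2 =>
    rw [map_add, hs_padd, hs_padd, dd_padd, h1, h2]
    ring
  | mul_X P o h =>
    rw [map_mul, bind₁_X_right, hs_mul, hs_mul, dd_mul, h, ev_bind, eval_X, hs_X', dd_X',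
      dd_X', dd_X', dd_bind, dd_bind]
    ring

/-- The second derivative only depends on the first coordinates. -/
theorem hs_congr {c : ℕ → Fin m} {r : ℕ} {Q : MvPolynomial (Option (Fin m)) ℝ} (hQ : DepC c r Q)
    {x y V V' W W' : Option (Fin m) → ℝ} (hx0 : x none = y none)
    (hx : ∀ l < r, x (some (c l)) = y (some (c l))) (hV0 : V none = V' none)
    (hV : ∀ l < r, V (some (c l)) = V' (some (c l))) (hW0 : W none = W' none)
    (hW : ∀ l < r, W (some (c l)) = W' (some (c l))) : hs Q x V W = hs Q y V' W' := by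
  rw [← dd_dP, dd_congr_pt (dep_dP hQ W) V hx0 hx, dd_congr (dep_dP hQ W) y hV0 hV, dd_dP,
    hs_comm, ← dd_dP, dd_congr (dep_dP hQ V') y hW0 hW, dd_dP, hs_comm]

/-- **The frame equation of the second derivative of the fibre.** -/
theorem fib_hs {c : ℕ → Fin m} {r : ℕ} {ψ : ℕ → MvPolynomial (Option (Fin m)) ℝ}
    {x : Option (Fin m) → ℝ} (hc : Set.InjOn c (Set.Iio r)) (hdep : ∀ l, DepC c l (ψ l))
    (e V W : Option (Fin m) → ℝ) : hs (fib c ψ 0 x r none) e V W = 0 ∧ ∀ l < r,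
    hs (fib c ψ 0 x r (some (c l))) e V W -
      dd (ψ l) (fpt c ψ 0 r x e) (fun o => hs (fib c ψ 0 x r o) e V W) -
      hs (ψ l) (fpt c ψ 0 r x e) (fdv c ψ 0 r x e V) (fdv c ψ 0 r x e W) = 0 := by
  have h0 : ∀ l, hs (fib c ψ 0 x l none) e V W = 0 := by
    intro l
    rw [fib_none, hs_C]
  refine ⟨h0 r, fun l hl => ?_⟩
  have hf : ∀ j < l, fib c ψ 0 x l (some (c j)) = fib c ψ 0 x r (some (c j)) := fun j hj => by
    rw [fib_lt hc l hj hl.le, fib_lt hc r (hj.trans hl) le_rfl]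
  have h1 : hs (fib c ψ 0 x r (some (c l))) e V W = hs (bind₁ (fib c ψ 0 x l) (ψ l)) e V W := by
    rw [fib_lt hc r hl le_rfl, if_neg (Nat.not_lt_zero l), hs_padd, hs_X', add_zero]
  have hp0 : (fun o => eval e (fib c ψ 0 x l o)) none = fpt c ψ 0 r x e none := by
    show eval e (fib c ψ 0 x l none) = _
    rw [fib_none, eval_C, fpt_none]
  have hp : ∀ j < l, (fun o => eval e (fib c ψ 0 x l o)) (some (c j)) =
      fpt c ψ 0 r x e (some (c j)) := by
    intro j hj
    show eval e (fib c ψ 0 x l (some (c j))) = _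
    rw [hf j hj]
    rfl
  have hv0 : ∀ U : Option (Fin m) → ℝ, (fun o => dd (fib c ψ 0 x l o) e U) none =
      fdv c ψ 0 r x e U none := by
    intro U
    show dd (fib c ψ 0 x l none) e U = _
    rw [fib_none, dd_C, fdv_none]
  have hv : ∀ U : Option (Fin m) → ℝ, ∀ j < l, (fun o => dd (fib c ψ 0 x l o) e U) (some (c j)) =
      fdv c ψ 0 r x e U (some (c j)) := by
    intro U j hj
    show dd (fib c ψ 0 x l (some (c j))) e U = _
    rw [hf j hj]
    rfl
  rw [h1, hs_bind, hs_congr (hdep l) hp0 hp (hv0 V) (hv V) (hv0 W) (hv W),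
    dd_congr_pt (hdep l) _ hp0 hp, dd_congr (hdep l) (W := fun o => hs (fib c ψ 0 x l o) e V W)
      (V := fun o => hs (fib c ψ 0 x r o) e V W) _ (by
        show hs (fib c ψ 0 x l none) e V W = hs (fib c ψ 0 x r none) e V W
        rw [h0, h0]) (fun j hj => by
        show hs (fib c ψ 0 x l (some (c j))) e V W = hs (fib c ψ 0 x r (some (c j))) e V W
        rw [hf j hj])]
  ring

/-! ### The positions along a segment -/

/-- **The positions along a segment in the heights of the frame.** -/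
theorem pth_pos (r D : ℕ) : ∃ C : ℕ, 1 ≤ C ∧ ∀ {m : ℕ} {c : ℕ → Fin m} {k n P : ℕ}
    {ψ Q : ℕ → ℕ → MvPolynomial (Option (Fin m)) ℝ} {g : ℕ → ℕ → ℕ} {a : ℕ → ℕ}
    {κ : ℕ → ℕ → ℝ} {t₀ : ℝ} (_ : FolD c r k D n P ψ Q g a κ t₀)
    {x e₀ η : Option (Fin m) → ℝ} {p₀ : ℕ} {E : ℕ → ℝ}, x none = t₀ →
    (∀ t, 1 ≤ t → t ≤ n → ∀ l < r,
      |x (some (c l)) - eval x (ψ t l)| ≤ 2 ^ p₀ / 2 ^ g t l) →
    fpt c (frm ψ k n) 0 r x e₀ = x → (∀ t, 0 ≤ E t) → (∀ t, 1 ≤ t → t ≤ n → E t ≤ 2 ^ p₀) →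
    (∀ l < r, ∀ t, 1 ≤ t → t ≤ n → |η (some (c l))| ≤ E t / 2 ^ g t l) →
    Lo g k n P E → Hi g k 0 r n P E → ∀ u ∈ Set.Icc (0 : ℝ) 1, ∀ t, 1 ≤ t → t ≤ n → ∀ l < r,
      |fpt c (frm ψ k n) 0 r x (fun o => e₀ o + u * η o) (some (c l)) -
        eval (fpt c (frm ψ k n) 0 r x (fun o => e₀ o + u * η o)) (ψ t l)| ≤
          2 ^ (C * (P + p₀ + 1)) / 2 ^ g t l := by
  obtain ⟨C₁, hC₁, htg⟩ := fst_tg r D
  obtain ⟨A, hA⟩ : ∃ A : ℕ, A = 2 * C₁ + 6 := ⟨_, rfl⟩
  refine ⟨A ^ (r + 1), Nat.one_le_pow _ _ (by omega), ?_⟩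
  intro m c k n P ψ Q g a κ t₀ H x e₀ η p₀ E hx0 hx hfx hE hEp hη hLo hHi
  have hcr : Set.InjOn c (Set.Iio r) := H.inj.mono fun y hy => by
    rw [Set.mem_Iio] at hy ⊢
    omega
  have hdep : ∀ l, DepC c l (frm ψ k n l) := frm_dep H n
  obtain ⟨z, hz⟩ : ∃ z : ℝ → Option (Fin m) → ℝ,
    z = fun u => fpt c (frm ψ k n) 0 r x (fun o => e₀ o + u * η o) := ⟨_, rfl⟩
  have hz0 : ∀ u, z u none = t₀ := fun u => by
    rw [hz]
    show fpt c (frm ψ k n) 0 r x _ none = t₀
    rw [fpt_none, hx0]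
  have hzl : ∀ u, ∀ l < r, z u (some (c l)) = eval (z u) (frm ψ k n l) +
      (e₀ (some (c l)) + u * η (some (c l))) := fun u l hl => by
    rw [hz]
    exact fpt_ge hcr hdep _ hl (Nat.zero_le l)
  have hxl : ∀ l < r, x (some (c l)) = eval x (frm ψ k n l) + e₀ (some (c l)) := fun l hl => by
    have h1 := fpt_ge (x := x) hcr hdep e₀ hl (Nat.zero_le l)
    rw [hfx] at h1
    exact h1
  obtain ⟨pl, hpl⟩ : ∃ pl : ℕ → ℕ, pl = fun l => A ^ (l + 1) * (P + p₀ + 1) := ⟨_, rfl⟩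
  have hpl0 : ∀ l, P + p₀ + 1 ≤ pl l := fun l => by
    rw [hpl]
    exact Nat.le_mul_of_pos_left _ (Nat.pow_pos (by omega))
  have hpl1 : ∀ l, C₁ * (P + pl l + 1) + P + P + p₀ + 2 ≤ pl (l + 1) := by
    intro l
    have e1 : pl (l + 1) = A * pl l := by
      rw [hpl]
      show A ^ (l + 1 + 1) * _ = A * (A ^ (l + 1) * _)
      rw [pow_succ A (l + 1)]
      ring
    rw [e1, hA]
    have h2 := hpl0 l
    have h3 : C₁ * (P + pl l + 1) ≤ C₁ * (2 * pl l) := Nat.mul_le_mul_left _ (by omega)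
    have h4 : C₁ * (2 * pl l) = 2 * C₁ * pl l := by ring
    have h5 : (2 * C₁ + 6) * pl l = 2 * C₁ * pl l + 6 * pl l := by ring
    omega
  have key : ∀ l ≤ r, ∀ u ∈ Set.Icc (0 : ℝ) 1, ∀ t, 1 ≤ t → t ≤ n → ∀ l' < l,
      |z u (some (c l')) - eval (z u) (ψ t l')| ≤ 2 ^ pl l / 2 ^ g t l' := by
    intro l
    induction l with
    | zero => exact fun _ u _ t _ _ l' hl' => absurd hl' (Nat.not_lt_zero l')
    | succ l ih =>
      intro hl
      have ih' := ih (by omega)
      -- one step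
      have hQ : ∀ t < n, ∀ u ∈ Set.Icc (0 : ℝ) 1, |eval (z u) (Q t l) - eval x (Q t l)| ≤
          2 ^ (C₁ * (P + pl l + 1)) * (E (t + 1) / 2 ^ g (t + 1) l) := by
        intro t ht u hu
        have h1 := mv_seg (bind₁ (fib c (frm ψ k n) 0 x r) (Q t l)) e₀ η
          (M := 2 ^ (C₁ * (P + pl l + 1)) * (E (t + 1) / 2 ^ g (t + 1) l)) (fun u hu => by
            rw [dd_bind]
            have h2 := (htg H (x := z u) (W := fdv c (frm ψ k n) 0 r x
              (fun o => e₀ o + u * η o) η) (p := pl l) (j₀ := 0) (l := l) (n₁ := t) (n₂ := t + 1)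
              (E := E) (T := E (t + 1) / 2 ^ g (t + 1) l) (by omega) (hz0 u)
              (fun t' h1 h2 l' hl' => ih' u hu t' h1 h2 l' hl') (fdv_none _ _ _)
              (fun l' hl' => absurd hl' (Nat.not_lt_zero l')) hE
              (fun l' hl' t' h1 h2 => by
                have h3 := fdv_ge (x := x) hcr hdep (fun o => e₀ o + u * η o) η
                  (show l' < r by omega) (Nat.zero_le l')
                have h4 : z u = fpt c (frm ψ k n) 0 r x (fun o => e₀ o + u * η o) := by rw [hz]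
                rw [h4, h3, add_sub_cancel_left]
                exact hη l' (by omega) t' h1 h2) hLo hHi (Nat.le_succ t) (by omega)
              (div_nonneg (hE _) (by positivity)) (fun t' h1 h2 => by
                have e1 : t' = t + 1 := by omega
                subst e1
                exact le_mul_of_one_le_left (div_nonneg (hE _) (by positivity))
                  (one_le_pow₀ (by norm_num)))).2 t le_rfl (Nat.lt_succ_self t)
            rw [hz] at h2
            exact h2) u hu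
        rw [ev_bind, ev_bind] at h1
        have e2 : (fun o => eval e₀ (fib c (frm ψ k n) 0 x r o)) = x := hfx
        rw [e2] at h1
        rw [hz]
        exact h1
      intro u hu t ht1 htn l' hl'
      rcases Nat.lt_or_ge l' l with h1 | h1
      · refine (ih' u hu t ht1 htn l' h1).trans (div_le_div_of_nonneg_right
          (pow_le_pow_right₀ (by norm_num) ?_) (by positivity))
        have := hpl1 l
        have h3 : pl l ≤ C₁ * (P + pl l + 1) := by nlinarith [Nat.zero_le P]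
        omega
      have e : l' = l := by omega
      subst e
      have hT0 : 0 ≤ E t / 2 ^ g t l' := div_nonneg (hE t) (by positivity)
      have hsum : |(if l' < k then (eval (z u) (ψ 0 l') - eval x (ψ 0 l')) -
            (eval (z u) (ψ t l') - eval x (ψ t l')) else
          -((eval (z u) (ψ t l') - eval x (ψ t l')) - (eval (z u) (ψ n l') - eval x (ψ n l'))))| ≤
          2 ^ (C₁ * (P + pl l' + 1) + P + P) * (E t / 2 ^ g t l') := by
        split_ifs with hk
        · rw [H.tel0 (by omega) (Nat.zero_le t) htn]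
          refine sum_bd H.nP hT0 _ htn fun t' _ ht' => ?_
          refine (hQ t' (by omega) u hu).trans ?_
          have h5 := hLo l' hk (t' + 1) t (by omega) (by omega) htn
          rw [pow_add, mul_assoc]
          exact mul_le_mul_of_nonneg_left h5 (by positivity)
        · rw [H.tel0 (by omega) htn le_rfl, abs_neg]
          refine sum_bd H.nP hT0 _ le_rfl fun t' ht' ht'n => ?_
          refine (hQ t' ht'n u hu).trans ?_
          have h5 := hHi l' (by omega) (Nat.zero_le _) (by omega) t (t' + 1) ht1 (by omega)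
            (by omega)
          rw [pow_add, mul_assoc]
          exact mul_le_mul_of_nonneg_left h5 (by positivity)
      have e2 : z u (some (c l')) - eval (z u) (ψ t l') = (x (some (c l')) - eval x (ψ t l')) +
          u * η (some (c l')) + (if l' < k then (eval (z u) (ψ 0 l') - eval x (ψ 0 l')) -
            (eval (z u) (ψ t l') - eval x (ψ t l')) else
          -((eval (z u) (ψ t l') - eval x (ψ t l')) -
            (eval (z u) (ψ n l') - eval x (ψ n l')))) := by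
        rw [hzl u l' (by omega), hxl l' (by omega)]
        unfold frm
        split_ifs <;> ring
      have f2 : |u * η (some (c l'))| ≤ E t / 2 ^ g t l' := by
        rw [abs_mul, abs_of_nonneg hu.1]
        calc u * |η (some (c l'))| ≤ 1 * (E t / 2 ^ g t l') :=
              mul_le_mul hu.2 (hη l' (by omega) t ht1 htn) (abs_nonneg _) zero_le_one
          _ = _ := one_mul _
      rw [e2]
      refine (abs_add_le _ _).trans ((add_le_add ((abs_add_le _ _).trans
        (add_le_add (hx t ht1 htn l' (by omega)) f2)) hsum).trans ?_)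
      have f3 : E t / 2 ^ g t l' ≤ 2 ^ p₀ / 2 ^ g t l' :=
        div_le_div_of_nonneg_right (hEp t ht1 htn) (by positivity)
      have f4 : 2 ^ (C₁ * (P + pl l' + 1) + P + P) * (E t / 2 ^ g t l') ≤
          2 ^ (C₁ * (P + pl l' + 1) + P + P) * (2 ^ p₀ / 2 ^ g t l') :=
        mul_le_mul_of_nonneg_left f3 (by positivity)
      have f5 : (2 : ℝ) ^ p₀ ≤ 2 ^ (C₁ * (P + pl l' + 1) + P + P + p₀) :=
        pow_le_pow_right₀ (by norm_num) (by omega)
      calc 2 ^ p₀ / 2 ^ g t l' + E t / 2 ^ g t l' +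
            2 ^ (C₁ * (P + pl l' + 1) + P + P) * (E t / 2 ^ g t l') ≤
          2 ^ p₀ / 2 ^ g t l' + 2 ^ p₀ / 2 ^ g t l' +
            2 ^ (C₁ * (P + pl l' + 1) + P + P) * (2 ^ p₀ / 2 ^ g t l') := by linarith
        _ = (2 ^ p₀ + 2 ^ p₀ + 2 ^ (C₁ * (P + pl l' + 1) + P + P + p₀)) / 2 ^ g t l' := by
            rw [pow_add _ _ p₀]
            ring
        _ ≤ 2 ^ (C₁ * (P + pl l' + 1) + P + P + p₀ + 2) / 2 ^ g t l' := by
            refine div_le_div_of_nonneg_right ?_ (by positivity)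
            rw [pow_add _ _ 2]
            have f6 : (0 : ℝ) ≤ 2 ^ (C₁ * (P + pl l' + 1) + P + P + p₀) := by positivity
            linarith
        _ ≤ _ := div_le_div_of_nonneg_right (pow_le_pow_right₀ (by norm_num) (hpl1 l'))
            (by positivity)
  intro u hu t ht1 htn l hl
  have h1 := key r le_rfl u hu t ht1 htn l hl
  rw [hpl, hz] at h1
  exact h1

end Pool.GF64
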