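import Pool.Agent.H64.GF.Bas

/-!
# Second derivatives along a chain of charts; the bounds for the target

`snd_bd`: the natural components, at every window, of a second derivative whose frame equation is
exact. `fst_tg`, `snd_tg`: the first and second derivatives of the differences of the charts of the
target.
-/

set_option autoImplicit false

namespace Pool.GF64

open Finset Real MvPolynomial
open Pool.Agent.H49.Ent Pool.Agent.H32.Dense Pool.STK Pool.KA Pool.KSAT Pool.K2S Pool.PB Pool.S6C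
open Pool.GEN Pool.CHT Pool.CHX Pool.ISO
open Pool.D2R

variable {m : ℕ}

/-- A second derivative with small components. -/
theorem nrz_le {c : ℕ → Fin m} {ψ : ℕ → MvPolynomial (Option (Fin m)) ℝ} {g : ℕ → ℕ}
    {a r : ℕ} {x V W Z : Option (Fin m) → ℝ} {L : ℝ} (h0 : Z none = 0) (hL : 0 ≤ L)
    (h1 : ∀ l < r, |Z (some (c l)) - dd (ψ l) x Z - hs (ψ l) x V W| ≤ L / 2 ^ g l) :
    nrz c ψ g a r x V W Z ≤ (r + 1) * L := by
  unfold nrz
  rw [h0, abs_zero, mul_zero, zero_add]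
  have h3 : ∑ l ∈ range r, 2 ^ g l * |Z (some (c l)) - dd (ψ l) x Z - hs (ψ l) x V W| ≤ r * L := by
    calc ∑ l ∈ range r, 2 ^ g l * |Z (some (c l)) - dd (ψ l) x Z - hs (ψ l) x V W| ≤
        ∑ _l ∈ range r, L := by
          refine Finset.sum_le_sum fun l hl => ?_
          have h4 := h1 l (Finset.mem_range.1 hl)
          rw [le_div_iff₀ (by positivity)] at h4
          linarith
      _ = r * L := by rw [Finset.sum_const, Finset.card_range, nsmul_eq_mul]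
  linarith

theorem two_pow_succ_le {l r : ℕ} (h : l + 1 ≤ r + 1) : ((l : ℝ) + 1) ≤ 2 ^ (r + 1) := by
  have h6 : ((l + 1 : ℕ) : ℝ) ≤ ((2 ^ (r + 1) : ℕ) : ℝ) := by
    exact_mod_cast h.trans (Nat.lt_two_pow_self).le
  push_cast at h6
  exact h6

/-- **The second derivative of one step.** -/
theorem stp_two (r D : ℕ) : ∃ C : ℕ, 1 ≤ C ∧ ∀ {m : ℕ} {c : ℕ → Fin m} {k n P : ℕ}
    {ψ Q : ℕ → ℕ → MvPolynomial (Option (Fin m)) ℝ} {g : ℕ → ℕ → ℕ} {a : ℕ → ℕ}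
    {κ : ℕ → ℕ → ℝ} {t₀ : ℝ} (_ : FolD c r k D n P ψ Q g a κ t₀)
    {x : Option (Fin m) → ℝ} {p l t : ℕ}, l ≤ r → x none = t₀ → t < n →
    (∀ l' < l, |x (some (c l')) - eval x (ψ (t + 1) l')| ≤ 2 ^ p / 2 ^ g (t + 1) l') →
    (∀ {W : Option (Fin m) → ℝ} {A : ℝ}, W none = 0 → 0 ≤ A → (∀ l' < l,
      |W (some (c l')) - dd (ψ (t + 1) l') x W| ≤ A / 2 ^ g (t + 1) l') →
      |dd (Q t l) x W| ≤ 2 ^ (C * (p + 1) + P) * (A / 2 ^ g (t + 1) l)) ∧
    ∀ {V W Z : Option (Fin m) → ℝ} {A A' B : ℝ}, V none = 0 → W none = 0 → Z none = 0 → 0 ≤ A →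
      0 ≤ A' → A * A' ≤ B →
      (∀ l' < l, |V (some (c l')) - dd (ψ (t + 1) l') x V| ≤ A / 2 ^ g (t + 1) l') →
      (∀ l' < l, |W (some (c l')) - dd (ψ (t + 1) l') x W| ≤ A' / 2 ^ g (t + 1) l') →
      (∀ l' < l, |Z (some (c l')) - dd (ψ (t + 1) l') x Z - hs (ψ (t + 1) l') x V W| ≤
        B / 2 ^ g (t + 1) l') →
      |hs (Q t l) x V W + dd (Q t l) x Z| ≤ 2 ^ (C * (p + 1) + P) * (B / 2 ^ g (t + 1) l) := by
  have h := fun l : ℕ => box_dl l D D
  choose Cb hCb hbox using h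
  obtain ⟨C₁, hC₁⟩ : ∃ C₁ : ℕ, C₁ = ∑ l ∈ range (r + 1), Cb l := ⟨_, rfl⟩
  have hCl : ∀ l ≤ r, Cb l ≤ C₁ := by
    intro l hl
    rw [hC₁]
    exact Finset.single_le_sum (f := Cb) (fun _ _ => Nat.zero_le _)
      (Finset.mem_range.2 (Nat.lt_succ_of_le hl))
  refine ⟨C₁ + 2 * r + 3, by omega, ?_⟩
  intro m c k n P ψ Q g a κ t₀ H x p l t hlr hx0 htn hx
  obtain ⟨b1, b2⟩ := hbox l (c := c) (ψ := ψ (t + 1)) (Q := Q t l) (g := g (t + 1))
    (a := a (t + 1)) (M := 2 ^ P / 2 ^ g (t + 1) l) (x := x) (p := p)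
    (H.inj.mono fun y hy => by
      rw [Set.mem_Iio] at hy ⊢
      omega) (H.dψ _) (H.pψ _) (H.pQ _ _) (H.dQ _ _) (by positivity)
    (fun b hb => H.box t htn l (by omega) b (by rw [← hx0]; exact hb)) hx
  have e1 : (2 : ℝ) ^ (Cb l * (p + 1)) ≤ 2 ^ (C₁ * (p + 1)) := pow_le_pow_right₀ (by norm_num)
    (Nat.mul_le_mul_right _ (hCl l hlr))
  have e3 : ((l : ℝ) + 1) ≤ 2 ^ (r + 1) := two_pow_succ_le (by omega)
  have e4 : (0 : ℝ) ≤ (l : ℝ) + 1 := by positivity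
  have nV : ∀ {V : Option (Fin m) → ℝ} {A : ℝ}, V none = 0 → 0 ≤ A →
      (∀ l' < l, |V (some (c l')) - dd (ψ (t + 1) l') x V| ≤ A / 2 ^ g (t + 1) l') →
      nrm c (ψ (t + 1)) (g (t + 1)) (a (t + 1)) l x V ≤ 2 ^ (r + 1) * A := by
    intro V A hV0 hA hV
    exact (nrm_le (L := A) (by
      rw [hV0, abs_zero]
      positivity) hV).trans (mul_le_mul_of_nonneg_right e3 hA)
  refine ⟨?_, ?_⟩
  · intro W A hW0 hA hW
    refine (b1 W).trans ?_
    calc 2 ^ (Cb l * (p + 1)) * (2 ^ P / 2 ^ g (t + 1) l) *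
          nrm c (ψ (t + 1)) (g (t + 1)) (a (t + 1)) l x W ≤
        2 ^ (C₁ * (p + 1)) * (2 ^ P / 2 ^ g (t + 1) l) * (2 ^ (r + 1) * A) := by
          refine mul_le_mul (mul_le_mul_of_nonneg_right e1 (by positivity)) (nV hW0 hA hW)
            (nrm_nonneg _ _ _ _ _ _ _) (by positivity)
      _ = 2 ^ (C₁ * (p + 1) + P + (r + 1)) * (A / 2 ^ g (t + 1) l) := by
          rw [pow_add, pow_add]
          ring
      _ ≤ _ := by
          refine mul_le_mul_of_nonneg_right (pow_le_pow_right₀ (by norm_num) ?_)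
            (div_nonneg hA (by positivity))
          nlinarith [Nat.zero_le p, Nat.zero_le (r * p)]
  · intro V W Z A A' B hV0 hW0 hZ0 hA hA' hAB hV hW hZ
    have hB : 0 ≤ B := (mul_nonneg hA hA').trans hAB
    refine (b2 V W Z).trans ?_
    have n1 := nV hV0 hA hV
    have n2 := nV hW0 hA' hW
    have n3 : nrz c (ψ (t + 1)) (g (t + 1)) (a (t + 1)) l x V W Z ≤ 2 ^ (r + 1) * B :=
      (nrz_le hZ0 hB hZ).trans (mul_le_mul_of_nonneg_right e3 hB)
    have n4 : nrm c (ψ (t + 1)) (g (t + 1)) (a (t + 1)) l x V *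
        nrm c (ψ (t + 1)) (g (t + 1)) (a (t + 1)) l x W ≤ (2 ^ (r + 1) * 2 ^ (r + 1)) * B := by
      calc _ ≤ (2 ^ (r + 1) * A) * (2 ^ (r + 1) * A') :=
            mul_le_mul n1 n2 (nrm_nonneg _ _ _ _ _ _ _) (by positivity)
        _ = (2 ^ (r + 1) * 2 ^ (r + 1)) * (A * A') := by ring
        _ ≤ _ := mul_le_mul_of_nonneg_left hAB (by positivity)
    have n5 : (2 : ℝ) ^ (r + 1) * B ≤ (2 ^ (r + 1) * 2 ^ (r + 1)) * B := by
      refine mul_le_mul_of_nonneg_right ?_ hB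
      exact le_mul_of_one_le_right (by positivity) (one_le_pow₀ (by norm_num))
    have n6 := nrz_nonneg c (ψ (t + 1)) (g (t + 1)) (a (t + 1)) l x V W Z
    have n7 := mul_nonneg (nrm_nonneg c (ψ (t + 1)) (g (t + 1)) (a (t + 1)) l x V)
      (nrm_nonneg c (ψ (t + 1)) (g (t + 1)) (a (t + 1)) l x W)
    calc 2 ^ (Cb l * (p + 1)) * (2 ^ P / 2 ^ g (t + 1) l) *
          (nrm c (ψ (t + 1)) (g (t + 1)) (a (t + 1)) l x V *
            nrm c (ψ (t + 1)) (g (t + 1)) (a (t + 1)) l x W +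
            nrz c (ψ (t + 1)) (g (t + 1)) (a (t + 1)) l x V W Z) ≤
        2 ^ (C₁ * (p + 1)) * (2 ^ P / 2 ^ g (t + 1) l) *
          (2 * ((2 ^ (r + 1) * 2 ^ (r + 1)) * B)) := by
          refine mul_le_mul (mul_le_mul_of_nonneg_right e1 (by positivity)) (by linarith)
            (add_nonneg n7 n6) (by positivity)
      _ = 2 ^ (C₁ * (p + 1) + P + (1 + ((r + 1) + (r + 1)))) * (B / 2 ^ g (t + 1) l) := by
          rw [pow_add, pow_add, pow_add _ 1, pow_add _ (r + 1), pow_one]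
          ring
      _ ≤ _ := by
          refine mul_le_mul_of_nonneg_right (pow_le_pow_right₀ (by norm_num) ?_)
            (div_nonneg hB (by positivity))
          nlinarith [Nat.zero_le p, Nat.zero_le (r * p)]

/-- **The second derivative, at every window, if its frame equation is exact.** -/
theorem snd_bd (r D : ℕ) : ∃ C : ℕ, 1 ≤ C ∧ ∀ {m : ℕ} {c : ℕ → Fin m} {k n P : ℕ}
    {ψ Q : ℕ → ℕ → MvPolynomial (Option (Fin m)) ℝ} {g : ℕ → ℕ → ℕ} {a : ℕ → ℕ}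
    {κ : ℕ → ℕ → ℝ} {t₀ : ℝ} (_ : FolD c r k D n P ψ Q g a κ t₀)
    {x V W Z : Option (Fin m) → ℝ} {p l : ℕ} {E E' B : ℕ → ℝ}, l ≤ r → x none = t₀ →
    (∀ t, 1 ≤ t → t ≤ n → ∀ l', l' + 1 < l →
      |x (some (c l')) - eval x (ψ t l')| ≤ 2 ^ p / 2 ^ g t l') →
    V none = 0 → W none = 0 → Z none = 0 → (∀ t, 0 ≤ E t) → (∀ t, 0 ≤ E' t) →
    (∀ t, 0 ≤ B t) → (∀ t, 1 ≤ t → t ≤ n → E t * E' t ≤ B t) →
    (∀ t, 1 ≤ t → t ≤ n → ∀ l' < l, |V (some (c l')) - dd (ψ t l') x V| ≤ E t / 2 ^ g t l') →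
    (∀ t, 1 ≤ t → t ≤ n → ∀ l' < l, |W (some (c l')) - dd (ψ t l') x W| ≤ E' t / 2 ^ g t l') →
    (∀ l' < l, Z (some (c l')) - dd (frm ψ k n l') x Z - hs (frm ψ k n l') x V W = 0) →
    Lo g k n P B → Hi g k 0 r n P B → ∀ t, 1 ≤ t → t ≤ n → ∀ l' < l,
      |Z (some (c l')) - dd (ψ t l') x Z - hs (ψ t l') x V W| ≤
        2 ^ (C * (P + p + 1)) * (B t / 2 ^ g t l') := by
  obtain ⟨C₁, hC₁, hst⟩ := stp_two r D
  obtain ⟨A, hA⟩ : ∃ A : ℕ, A = C₁ + 5 := ⟨_, rfl⟩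
  refine ⟨A * (r + 1), Nat.mul_pos (by omega) (by omega), ?_⟩
  intro m c k n P ψ Q g a κ t₀ H x V W Z p l E E' B hlr hx0 hx hV0 hW0 hZ0 hE hE' hB0 hB hV hW
    hfr hLo hHi
  have key : ∀ l₁ ≤ l, ∀ t, 1 ≤ t → t ≤ n → ∀ l' < l₁,
      |Z (some (c l')) - dd (ψ t l') x Z - hs (ψ t l') x V W| ≤
      2 ^ (A * l₁ * (P + p + 1)) * (B t / 2 ^ g t l') := by
    intro l₁
    induction l₁ with
    | zero => exact fun _ t _ _ l' hl' => absurd hl' (Nat.not_lt_zero l')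
    | succ l₁ ih =>
      intro hl₁
      have ih' := ih (by omega)
      intro t ht1 htn l' hl'
      have hT0 : 0 ≤ B t / 2 ^ g t l' := div_nonneg (hB0 t) (by positivity)
      rcases Nat.lt_or_ge l' l₁ with h1 | h1
      · refine (ih' t ht1 htn l' h1).trans (mul_le_mul_of_nonneg_right
          (pow_le_pow_right₀ (by norm_num) ?_) hT0)
        exact Nat.mul_le_mul_right _ (Nat.mul_le_mul_left _ (Nat.le_succ _))
      have e : l' = l₁ := by omega
      subst e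
      obtain ⟨u, hu⟩ : ∃ u : ℕ, u = C₁ * (p + 1) + P + A * l' * (P + p + 1) := ⟨_, rfl⟩
      have hst' : ∀ t' < n, |hs (Q t' l') x V W + dd (Q t' l') x Z| ≤
          2 ^ u * (B (t' + 1) / 2 ^ g (t' + 1) l') := by
        intro t' ht'
        have h2 := (hst H (x := x) (p := p) (l := l') (t := t') (by omega) hx0 ht'
          (fun l'' hl'' => hx (t' + 1) (by omega) (by omega) l'' (by omega))).2 (V := V) (W := W)
          (Z := Z) (A := E (t' + 1)) (A' := E' (t' + 1))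
          (B := 2 ^ (A * l' * (P + p + 1)) * B (t' + 1)) hV0 hW0 hZ0 (hE _) (hE' _)
          ((hB (t' + 1) (by omega) (by omega)).trans
            (le_mul_of_one_le_left (hB0 _) (one_le_pow₀ (by norm_num))))
          (fun l'' hl'' => hV (t' + 1) (by omega) (by omega) l'' (by omega))
          (fun l'' hl'' => hW (t' + 1) (by omega) (by omega) l'' (by omega))
          (fun l'' hl'' => (ih' (t' + 1) (by omega) (by omega) l'' hl'').trans (le_of_eq (by ring)))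
        refine h2.trans (le_of_eq ?_)
        rw [hu, pow_add _ (C₁ * (p + 1) + P)]
        ring
      have hsum : |(if l' < k then (hs (ψ 0 l') x V W + dd (ψ 0 l') x Z) -
            (hs (ψ t l') x V W + dd (ψ t l') x Z) else
          -((hs (ψ t l') x V W + dd (ψ t l') x Z) - (hs (ψ n l') x V W + dd (ψ n l') x Z)))| ≤
          2 ^ (u + P + P) * (B t / 2 ^ g t l') := by
        split_ifs with hk
        · rw [H.tel2 (by omega) (Nat.zero_le t) htn]
          refine sum_bd H.nP hT0 _ htn fun t' _ ht' => ?_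
          refine (hst' t' (by omega)).trans ?_
          have h5 := hLo l' hk (t' + 1) t (by omega) (by omega) htn
          rw [pow_add, mul_assoc]
          exact mul_le_mul_of_nonneg_left h5 (by positivity)
        · rw [H.tel2 (by omega) htn le_rfl, abs_neg]
          refine sum_bd H.nP hT0 _ le_rfl fun t' ht' ht'n => ?_
          refine (hst' t' ht'n).trans ?_
          have h5 := hHi l' (by omega) (Nat.zero_le _) (by omega) t (t' + 1) ht1 (by omega)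
            (by omega)
          rw [pow_add, mul_assoc]
          exact mul_le_mul_of_nonneg_left h5 (by positivity)
      have e2 : Z (some (c l')) - dd (ψ t l') x Z - hs (ψ t l') x V W =
          (Z (some (c l')) - dd (frm ψ k n l') x Z - hs (frm ψ k n l') x V W) +
          (if l' < k then (hs (ψ 0 l') x V W + dd (ψ 0 l') x Z) -
            (hs (ψ t l') x V W + dd (ψ t l') x Z) else
          -((hs (ψ t l') x V W + dd (ψ t l') x Z) - (hs (ψ n l') x V W + dd (ψ n l') x Z))) := by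
        unfold frm
        split_ifs <;> ring
      rw [e2, hfr l' (by omega), zero_add]
      refine hsum.trans (mul_le_mul_of_nonneg_right (pow_le_pow_right₀ (by norm_num) ?_) hT0)
      rw [hu, hA]
      nlinarith [Nat.zero_le p, Nat.zero_le P, Nat.zero_le C₁, Nat.zero_le (C₁ * P),
        Nat.zero_le (l' * (P + p + 1))]
  intro t ht1 htn l' hl'
  refine (key l le_rfl t ht1 htn l' hl').trans (mul_le_mul_of_nonneg_right
    (pow_le_pow_right₀ (by norm_num) ?_) (div_nonneg (hB0 t) (by positivity)))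
  exact Nat.mul_le_mul_right _ (Nat.mul_le_mul_left _ (by omega))

/-- **The first derivative of the difference of the charts of one place.** -/
theorem fst_tg (r D : ℕ) : ∃ C : ℕ, 1 ≤ C ∧ ∀ {m : ℕ} {c : ℕ → Fin m} {k n P : ℕ}
    {ψ Q : ℕ → ℕ → MvPolynomial (Option (Fin m)) ℝ} {g : ℕ → ℕ → ℕ} {a : ℕ → ℕ}
    {κ : ℕ → ℕ → ℝ} {t₀ : ℝ} (_ : FolD c r k D n P ψ Q g a κ t₀)
    {x W : Option (Fin m) → ℝ} {p j₀ l n₁ n₂ : ℕ} {E : ℕ → ℝ} {T : ℝ}, l ≤ r → x none = t₀ →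
    (∀ t, 1 ≤ t → t ≤ n → ∀ l' < l,
      |x (some (c l')) - eval x (ψ t l')| ≤ 2 ^ p / 2 ^ g t l') → W none = 0 →
    (∀ l' < j₀, W (some (c l')) = 0) → (∀ t, 0 ≤ E t) →
    (∀ l' < l, ∀ t, 1 ≤ t → t ≤ n →
      |W (some (c l')) - dd (frm ψ k n l') x W| ≤ E t / 2 ^ g t l') →
    Lo g k n P E → Hi g k j₀ r n P E → n₁ ≤ n₂ → n₂ ≤ n → 0 ≤ T →
    (∀ t, n₁ < t → t ≤ n₂ → E t / 2 ^ g t l ≤ 2 ^ P * T) →
      |dd (ψ n₁ l) x W - dd (ψ n₂ l) x W| ≤ 2 ^ (C * (P + p + 1)) * T ∧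
      ∀ t, n₁ ≤ t → t < n₂ → |dd (Q t l) x W| ≤ 2 ^ (C * (P + p + 1)) * T := by
  obtain ⟨C₁, hC₁, hst⟩ := stp_two r D
  obtain ⟨C₂, hC₂, hf⟩ := fst_bd r D
  refine ⟨C₁ + C₂ + 3, by omega, ?_⟩
  intro m c k n P ψ Q g a κ t₀ H x W p j₀ l n₁ n₂ E T hlr hx0 hx hW0 hWj hE hfr hLo hHi h12 h2n
    hT0 hT
  have hb := hf H hlr hx0 (fun t h1 h2 l' hl' => hx t h1 h2 l' (by omega)) hW0 hWj hE hfr hLo hHi
  have hst' : ∀ t, n₁ ≤ t → t < n₂ → |dd (Q t l) x W| ≤
      2 ^ (C₁ * (p + 1) + P + C₂ * (P + p + 1) + P) * T := by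
    intro t h1 h2
    have h3 := (hst H (x := x) (p := p) (l := l) (t := t) hlr hx0 (by omega)
      (fun l'' hl'' => hx (t + 1) (by omega) (by omega) l'' (by omega))).1 (W := W)
      (A := 2 ^ (C₂ * (P + p + 1)) * E (t + 1)) hW0 (mul_nonneg (by positivity) (hE _))
      (fun l' hl' => (hb (t + 1) (by omega) (by omega) l' hl').trans (le_of_eq (by ring)))
    refine h3.trans ?_
    calc 2 ^ (C₁ * (p + 1) + P) * (2 ^ (C₂ * (P + p + 1)) * E (t + 1) / 2 ^ g (t + 1) l) =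
          2 ^ (C₁ * (p + 1) + P + C₂ * (P + p + 1)) * (E (t + 1) / 2 ^ g (t + 1) l) := by
          rw [pow_add _ (C₁ * (p + 1) + P)]
          ring
      _ ≤ 2 ^ (C₁ * (p + 1) + P + C₂ * (P + p + 1)) * (2 ^ P * T) :=
          mul_le_mul_of_nonneg_left (hT (t + 1) (by omega) (by omega)) (by positivity)
      _ = _ := by
          rw [pow_add _ _ P]
          ring
  have hexp : C₁ * (p + 1) + P + C₂ * (P + p + 1) + P + P ≤ (C₁ + C₂ + 3) * (P + p + 1) := by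
    nlinarith [Nat.zero_le (C₁ * P), Nat.zero_le p]
  refine ⟨?_, fun t h1 h2 => (hst' t h1 h2).trans (mul_le_mul_of_nonneg_right
    (pow_le_pow_right₀ (by norm_num) (by omega)) hT0)⟩
  rw [H.tel hlr h12 h2n]
  exact (sum_bd H.nP hT0 _ h2n hst').trans (mul_le_mul_of_nonneg_right
    (pow_le_pow_right₀ (by norm_num) hexp) hT0)

/-- **The second derivative of the difference of the charts of the target.** -/
theorem snd_tg (r D : ℕ) : ∃ C : ℕ, 1 ≤ C ∧ ∀ {m : ℕ} {c : ℕ → Fin m} {k n P : ℕ}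
    {ψ Q : ℕ → ℕ → MvPolynomial (Option (Fin m)) ℝ} {g : ℕ → ℕ → ℕ} {a : ℕ → ℕ}
    {κ : ℕ → ℕ → ℝ} {t₀ : ℝ} (_ : FolD c r k D n P ψ Q g a κ t₀)
    {x V W Z : Option (Fin m) → ℝ} {p : ℕ} {E E' B : ℕ → ℝ} {T : ℝ}, x none = t₀ →
    (∀ t, 1 ≤ t → t ≤ n → ∀ l' < r,
      |x (some (c l')) - eval x (ψ t l')| ≤ 2 ^ p / 2 ^ g t l') →
    V none = 0 → W none = 0 → Z none = 0 → (∀ t, 0 ≤ E t) → (∀ t, 0 ≤ E' t) →
    (∀ t, 0 ≤ B t) → (∀ t, 1 ≤ t → t ≤ n → E t * E' t ≤ B t) →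
    (∀ l' < r, ∀ t, 1 ≤ t → t ≤ n →
      |V (some (c l')) - dd (frm ψ k n l') x V| ≤ E t / 2 ^ g t l') →
    (∀ l' < r, ∀ t, 1 ≤ t → t ≤ n →
      |W (some (c l')) - dd (frm ψ k n l') x W| ≤ E' t / 2 ^ g t l') →
    (∀ l' < r, Z (some (c l')) - dd (frm ψ k n l') x Z - hs (frm ψ k n l') x V W = 0) →
    Lo g k n P E → Hi g k 0 r n P E → Lo g k n P E' → Hi g k 0 r n P E' →
    Lo g k n P B → Hi g k 0 r n P B → 0 ≤ T →
    (∀ t, 0 < t → t ≤ n → B t / 2 ^ g t r ≤ 2 ^ P * T) →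
      |(hs (ψ 0 r) x V W + dd (ψ 0 r) x Z) - (hs (ψ n r) x V W + dd (ψ n r) x Z)| ≤
        2 ^ (C * (P + p + 1)) * T := by
  obtain ⟨C₁, hC₁, hst⟩ := stp_two r D
  obtain ⟨C₂, hC₂, hf⟩ := fst_bd r D
  obtain ⟨C₃, hC₃, hs3⟩ := snd_bd r D
  refine ⟨C₁ + 2 * C₂ + C₃ + 3, by omega, ?_⟩
  intro m c k n P ψ Q g a κ t₀ H x V W Z p E E' B T hx0 hx hV0 hW0 hZ0 hE hE' hB0 hB hfV hfW hfZ
    hLE hHE hLE' hHE' hLB hHB hT0 hT
  obtain ⟨w, hw⟩ : ∃ w : ℕ, w = C₂ * (P + p + 1) := ⟨_, rfl⟩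
  have hxx : ∀ t, 1 ≤ t → t ≤ n → ∀ l', l' + 1 < r →
      |x (some (c l')) - eval x (ψ t l')| ≤ 2 ^ p / 2 ^ g t l' := fun t h1 h2 l' hl' =>
    hx t h1 h2 l' (by omega)
  have hV := hf H le_rfl hx0 hxx (j₀ := 0) hV0 (fun l' hl' => absurd hl' (Nat.not_lt_zero _)) hE
    hfV hLE hHE
  have hW := hf H le_rfl hx0 hxx (j₀ := 0) hW0 (fun l' hl' => absurd hl' (Nat.not_lt_zero _)) hE'
    hfW hLE' hHE'
  rw [← hw] at hV hW
  have hp : (0 : ℝ) < 2 ^ w := by positivity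
  have hZ := hs3 H (E := fun t => 2 ^ w * E t) (E' := fun t => 2 ^ w * E' t)
    (B := fun t => 2 ^ (2 * w) * B t) le_rfl hx0 hxx hV0 hW0 hZ0
    (fun t => mul_nonneg hp.le (hE t)) (fun t => mul_nonneg hp.le (hE' t))
    (fun t => mul_nonneg (by positivity) (hB0 t))
    (fun t g1 g2 => by
      have h1 := mul_le_mul_of_nonneg_left (hB t g1 g2) (show (0 : ℝ) ≤ 2 ^ (2 * w) by positivity)
      refine le_trans (le_of_eq ?_) h1
      rw [two_mul, pow_add]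
      ring)
    (fun t h1 h2 l' hl' => (hV t h1 h2 l' hl').trans (le_of_eq (by ring)))
    (fun t h1 h2 l' hl' => (hW t h1 h2 l' hl').trans (le_of_eq (by ring))) hfZ
    (fun l' hl' t' t h1 h2 h3 => by
      have h4 := mul_le_mul_of_nonneg_left (hLB l' hl' t' t h1 h2 h3)
        (show (0 : ℝ) ≤ 2 ^ (2 * w) by positivity)
      refine le_trans (le_of_eq (by ring)) (h4.trans (le_of_eq (by ring))))
    (fun l' hl' hl0 hlr t t' h1 h2 h3 => by
      have h4 := mul_le_mul_of_nonneg_left (hHB l' hl' hl0 hlr t t' h1 h2 h3)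
        (show (0 : ℝ) ≤ 2 ^ (2 * w) by positivity)
      refine le_trans (le_of_eq (by ring)) (h4.trans (le_of_eq (by ring))))
  have hst' : ∀ t, 0 ≤ t → t < n → |hs (Q t r) x V W + dd (Q t r) x Z| ≤
      2 ^ (C₁ * (p + 1) + P + (2 * w + C₃ * (P + p + 1)) + P) * T := by
    intro t _ h2
    have h3 := (hst H (x := x) (p := p) (l := r) (t := t) le_rfl hx0 h2
      (fun l'' hl'' => hx (t + 1) (by omega) (by omega) l'' (by omega))).2 (V := V) (W := W)
      (Z := Z) (A := 2 ^ w * E (t + 1)) (A' := 2 ^ w * E' (t + 1))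
      (B := 2 ^ (2 * w + C₃ * (P + p + 1)) * B (t + 1)) hV0 hW0 hZ0
      (mul_nonneg hp.le (hE _)) (mul_nonneg hp.le (hE' _))
      (by
        have h4 := mul_le_mul_of_nonneg_left (hB (t + 1) (by omega) (by omega))
          (show (0 : ℝ) ≤ 2 ^ (2 * w) by positivity)
        have h5 : (2 : ℝ) ^ (2 * w) * B (t + 1) ≤
            2 ^ (2 * w + C₃ * (P + p + 1)) * B (t + 1) :=
          mul_le_mul_of_nonneg_right (pow_le_pow_right₀ (by norm_num) (by omega)) (hB0 _)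
        refine le_trans (le_of_eq ?_) (h4.trans h5)
        rw [two_mul, pow_add]
        ring)
      (fun l' hl' => (hV (t + 1) (by omega) (by omega) l' hl').trans (le_of_eq (by ring)))
      (fun l' hl' => (hW (t + 1) (by omega) (by omega) l' hl').trans (le_of_eq (by ring)))
      (fun l' hl' => (hZ (t + 1) (by omega) (by omega) l' hl').trans (le_of_eq (by
        rw [pow_add]
        ring)))
    refine h3.trans ?_
    calc 2 ^ (C₁ * (p + 1) + P) * (2 ^ (2 * w + C₃ * (P + p + 1)) * B (t + 1) /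
            2 ^ g (t + 1) r) =
          2 ^ (C₁ * (p + 1) + P + (2 * w + C₃ * (P + p + 1))) * (B (t + 1) / 2 ^ g (t + 1) r) := by
          rw [pow_add _ (C₁ * (p + 1) + P)]
          ring
      _ ≤ 2 ^ (C₁ * (p + 1) + P + (2 * w + C₃ * (P + p + 1))) * (2 ^ P * T) :=
          mul_le_mul_of_nonneg_left (hT (t + 1) (by omega) (by omega)) (by positivity)
      _ = _ := by
          rw [pow_add _ _ P]
          ring
  rw [H.tel2 le_rfl (Nat.zero_le n) le_rfl]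
  refine (sum_bd H.nP hT0 _ le_rfl hst').trans (mul_le_mul_of_nonneg_right
    (pow_le_pow_right₀ (by norm_num) ?_) hT0)
  rw [hw]
  nlinarith [Nat.zero_le (C₁ * P), Nat.zero_le p]

end Pool.GF64
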